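import Pool.Agent.H48.PL.Thin

/-!
# NT.All : small deflections in all directions (MP_c15324_an, nonlinear touching inequality)

`AnS τ m = {h | τ²/64 |m|² ≤ |h|² ≤ τ² |m|²}`. `AM` is the gain by these deflections with the true function.
* `all_low` : the angular mass of `AnS` is at least `c₇ τ^(-2s)`: `shell_low` with `u = τ²/84`, `|h|²/|m|² = (1-c²)/c²`,
  `u ≤ 1-c ≤ 32u`; the cut-off is not active for `ε ≤ τ²/32`.
* `am_le` : if `g ≤ c` on `v + AnS τ m` then `AM g ≤ K_τ c`.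
* `TM_le_AM`, `AM_add_le`, `TM_add_le`.
-/

set_option autoImplicit false

open MeasureTheory Set Filter Topology Pool.Agent.H25.Kin Pool.Agent.H82.BK Pool.Agent.H82.CM
open Pool.Agent.H48.PL
open scoped ENNReal

namespace Pool.Agent.H82.NT

variable {d : ℕ} {γ s a C Ca cb : ℝ} {b : ℝ → ℝ}

/-- small displacements -/
def AnS (τ : ℝ) (m : Vec d) : Set (Vec d) := {h | τ ^ 2 / 64 * nsq m ≤ nsq h ∧ nsq h ≤ τ ^ 2 * nsq m}

lemma measurableSet_AnS (τ : ℝ) : MeasurableSet {q : Vec d × Vec d | q.2 ∈ AnS τ q.1} := by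
  have h1 : Continuous fun q : Vec d × Vec d => nsq q.1 := continuous_sq.comp continuous_fst
  have h2 : Continuous fun q : Vec d × Vec d => nsq q.2 := continuous_sq.comp continuous_snd
  exact ((isClosed_le (continuous_const.mul h1) h2).inter
    (isClosed_le h2 (continuous_const.mul h1))).measurableSet

open Classical in
/-- the gain by small deflections, with the true function -/
noncomputable def AM (τ γ : ℝ) (b : ℝ → ℝ) (ε : ℝ) (g : Vec d → ℝ) (v m : Vec d) : ℝ≥0∞ :=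
  ∫⁻ σ in {σ : Vec d | 0 < dot m σ}, (if hh σ m ∈ AnS τ m then
    ENNReal.ofReal (Kn d γ (bt b ε) (co m σ) * g (v + hh σ m)) else 0) ∂(surf d)

lemma TM_le_AM (e : Fin d) (τ γ : ℝ) (b : ℝ → ℝ) (ε : ℝ) (g : Vec d → ℝ) (v m : Vec d) :
    TM e τ γ b ε g v m ≤ AM τ γ b ε g v m := by
  unfold TM AM
  refine lintegral_mono fun σ => ?_
  dsimp only
  by_cases h : hh σ m ∈ SdS e τ m
  · have h1 : hh σ m ∈ AnS τ m := by
      refine ⟨le_trans ?_ h.1, h.2.1⟩
      have h2 := sq_nonneg' m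
      have h3 := sq_nonneg τ
      linarith [mul_nonneg h3 h2]
    rw [if_pos h, if_pos h1]
  · rw [if_neg h]
    exact zero_le

private lemma al_Knm (hb : Measurable b) (ε : ℝ) (m : Vec d) :
    Measurable fun σ : Vec d => Kn d γ (bt b ε) (co m σ) := by
  have hcom : Measurable fun σ : Vec d => co m σ :=
    measurable_co.comp (measurable_const.prodMk measurable_id)
  have hbt := measurable_bt (b := b) hb ε
  have hKm' : Measurable (Kn d γ (bt b ε)) := by
    unfold Kn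
    have h1 : Measurable fun c : ℝ => c ^ (-2 - γ) := measurable_id.pow_const _
    have h2 : Measurable fun c : ℝ => bt b ε (2 * c ^ 2 - 1) := hbt.comp (by fun_prop)
    exact (measurable_const.mul h1).mul h2
  exact hKm'.comp hcom

private lemma al_hhm (m : Vec d) : Measurable fun σ : Vec d => hh σ m := by
  have h1 : Measurable fun σ : Vec d => ((m, σ) : Vec d × Vec d) :=
    measurable_const.prodMk measurable_id
  have h2 := (measurable_hh (d := d)).comp h1
  exact h2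

open Classical in
private lemma al_meas (hb : Measurable b) (ε : ℝ) {g : Vec d → ℝ} (hg : Measurable g) (v m : Vec d)
    {S : Set (Vec d)} (hS : MeasurableSet {σ : Vec d | hh σ m ∈ S}) :
    Measurable fun σ : Vec d => (if hh σ m ∈ S then
      ENNReal.ofReal (Kn d γ (bt b ε) (co m σ) * g (v + hh σ m)) else 0 : ℝ≥0∞) :=
  Measurable.ite hS
    ((al_Knm hb ε m).mul (hg.comp (measurable_const.add (al_hhm m)))).ennreal_ofReal measurable_const

private lemma al_setA (τ : ℝ) (m : Vec d) : MeasurableSet {σ : Vec d | hh σ m ∈ AnS τ m} := by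
  have h2 : Measurable fun σ : Vec d => (m, hh σ m) := measurable_const.prodMk (al_hhm m)
  exact h2 (measurableSet_AnS τ)

private lemma al_setS (e : Fin d) (τ : ℝ) (m : Vec d) :
    MeasurableSet {σ : Vec d | hh σ m ∈ SdS e τ m} := by
  have h2 : Measurable fun σ : Vec d => (m, hh σ m) := measurable_const.prodMk (al_hhm m)
  exact h2 (measurableSet_SdS e τ)

lemma AM_add_le (hb : Measurable b) (τ γ ε : ℝ) {g g1 g2 : Vec d → ℝ} (hg1 : Measurable g1)
    (hgg : ∀ u, g u = g1 u + g2 u) (v m : Vec d) :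
    AM τ γ b ε g v m ≤ AM τ γ b ε g1 v m + AM τ γ b ε g2 v m := by
  unfold AM
  rw [← lintegral_add_left (al_meas hb ε hg1 v m (al_setA τ m))]
  refine lintegral_mono fun σ => ?_
  dsimp only
  by_cases h : hh σ m ∈ AnS τ m
  · rw [if_pos h, if_pos h, if_pos h, hgg, mul_add]
    exact ENNReal.ofReal_add_le
  · rw [if_neg h]
    exact zero_le

lemma TM_add_le (hb : Measurable b) (e : Fin d) (τ γ ε : ℝ) {g g1 g2 : Vec d → ℝ} (hg1 : Measurable g1)
    (hgg : ∀ u, g u = g1 u + g2 u) (v m : Vec d) :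
    TM e τ γ b ε g v m ≤ TM e τ γ b ε g1 v m + TM e τ γ b ε g2 v m := by
  unfold TM
  rw [← lintegral_add_left (al_meas hb ε hg1 v m (al_setS e τ m))]
  refine lintegral_mono fun σ => ?_
  dsimp only
  by_cases h : hh σ m ∈ SdS e τ m
  · rw [if_pos h, if_pos h, if_pos h, hgg, mul_add]
    exact ENNReal.ofReal_add_le
  · rw [if_neg h]
    exact zero_le

/-- the bound of the kernel -/
private lemma al_kern {β τ ε : ℝ} (hC : AngBound b C β) (hβ : 0 ≤ β) (hγ : -2 < γ)
    (hτ : 0 < τ) (hτ1 : τ ≤ 1) {c : ℝ} (hc0 : 0 < c) (hl : τ ^ 2 / 64 ≤ (1 - c ^ 2) / c ^ 2)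
    (hu : (1 - c ^ 2) / c ^ 2 ≤ τ ^ 2) :
    Kn d γ (bt b ε) c ≤ 2 ^ (d - 1) * (1 / 2) ^ (-2 - γ) * (2 * C * (τ ^ 2 / 64) ^ (-β)) := by
  have hC0 := hC.1
  have hc2 : 0 < c ^ 2 := by positivity
  rw [le_div_iff₀ hc2] at hl
  rw [div_le_iff₀ hc2] at hu
  have hτ2 : τ ^ 2 ≤ 1 := by nlinarith
  have hτp : 0 < τ ^ 2 := by positivity
  have h1 : 1 / 2 ≤ c ^ 2 := by nlinarith
  have h2 : 1 / 2 ≤ c := by nlinarith
  have h3 : τ ^ 2 / 128 ≤ 1 - c ^ 2 := by nlinarith
  have h4 : bt b ε (2 * c ^ 2 - 1) ≤ 2 * C * (τ ^ 2 / 64) ^ (-β) := by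
    refine (bt_le hC hβ (by linarith) (by linarith)).trans ?_
    refine mul_le_mul_of_nonneg_left ?_ (by positivity)
    exact Real.rpow_le_rpow_of_nonpos (by positivity) (by linarith) (by linarith)
  have h5 : c ^ (-2 - γ) ≤ (1 / 2) ^ (-2 - γ) :=
    Real.rpow_le_rpow_of_nonpos (by norm_num) h2 (by linarith)
  have hB : 0 ≤ 2 * C * (τ ^ 2 / 64) ^ (-β) := by positivity
  unfold Kn
  calc 2 ^ (d - 1) * c ^ (-2 - γ) * bt b ε (2 * c ^ 2 - 1)
      ≤ 2 ^ (d - 1) * c ^ (-2 - γ) * (2 * C * (τ ^ 2 / 64) ^ (-β)) :=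
        mul_le_mul_of_nonneg_left h4 (by positivity)
    _ ≤ _ := by
        refine mul_le_mul_of_nonneg_right ?_ hB
        exact mul_le_mul_of_nonneg_left h5 (by positivity)

open Classical in
theorem am_le (H : Hyp d γ s b C Ca) {τ : ℝ} (hτ : 0 < τ) (hτ1 : τ ≤ 1) : ∃ K : ℝ, 0 ≤ K ∧
    ∀ (g : Vec d → ℝ) (c : ℝ), 0 ≤ c → ∀ v m : Vec d, (∀ h ∈ AnS τ m, g (v + h) ≤ c) → ∀ ε : ℝ, 0 < ε →
      AM τ γ b ε g v m ≤ ENNReal.ofReal (K * c) := by
  set K₀ : ℝ := 2 ^ (d - 1) * (1 / 2) ^ (-2 - γ) *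
    (2 * C * (τ ^ 2 / 64) ^ (-(((d : ℝ) - 1) / 2 + s))) with hK₀
  have hC0 := H.bd.1
  have hK₀0 : 0 ≤ K₀ := by positivity
  refine ⟨K₀ * (surf d univ).toReal, by positivity, fun g c hc v m hgc ε hε => ?_⟩
  have key : ∀ᵐ σ ∂((surf d).restrict {σ : Vec d | 0 < dot m σ}),
      (if hh σ m ∈ AnS τ m then
        ENNReal.ofReal (Kn d γ (bt b ε) (co m σ) * g (v + hh σ m)) else 0 : ℝ≥0∞) ≤
      ENNReal.ofReal (K₀ * c) := by
    filter_upwards [ae_restrict_of_ae surf_ae, ae_restrict_mem (measurableSet_half m)] with σ hσ hm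
    have hm' : 0 < dot m σ := hm
    by_cases h : hh σ m ∈ AnS τ m
    · rw [if_pos h]
      refine ENNReal.ofReal_le_ofReal ?_
      have hK0 := fast_Kn0 (γ := γ) H.bd hε hσ hm'
      have hm0 : 0 < nsq m := sq_pos_of_ne (ne_zero_of_dot hm')
      obtain ⟨h1, h2⟩ := h
      have e1 := nsq_hh hσ hm'
      have h1' : τ ^ 2 / 64 ≤ (1 - co m σ ^ 2) / co m σ ^ 2 := by
        rw [e1, mul_comm] at h1
        exact le_of_mul_le_mul_left h1 hm0
      have h2' : (1 - co m σ ^ 2) / co m σ ^ 2 ≤ τ ^ 2 := by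
        rw [e1, mul_comm (τ ^ 2)] at h2
        exact le_of_mul_le_mul_left h2 hm0
      have h3 : Kn d γ (bt b ε) (co m σ) ≤ K₀ :=
        al_kern H.bd H.β0 H.g1 hτ hτ1 (co_pos hm') h1' h2'
      exact (mul_le_mul_of_nonneg_left (hgc _ ⟨h1, h2⟩) hK0).trans (mul_le_mul_of_nonneg_right h3 hc)
    · rw [if_neg h]
      exact zero_le
  unfold AM
  refine (lintegral_mono_ae key).trans ?_
  rw [setLIntegral_const]
  calc ENNReal.ofReal (K₀ * c) * surf d {σ : Vec d | 0 < dot m σ}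
      ≤ ENNReal.ofReal (K₀ * c) * surf d univ := by
        gcongr
        exact subset_univ _
    _ = ENNReal.ofReal (K₀ * (surf d univ).toReal * c) := by
        rw [show K₀ * (surf d univ).toReal * c = (K₀ * c) * (surf d univ).toReal by ring,
          ENNReal.ofReal_mul (p := K₀ * c) (by positivity), ENNReal.ofReal_toReal (measure_ne_top _ _)]

/-- the arithmetic of the shell -/
private lemma al_arith {u c ε : ℝ} (hu0 : 0 < u) (hu1 : u ≤ 1 / 1344) (hε : ε ≤ 84 / 32 * u)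
    (h2 : u ≤ 1 - c) (h3 : 1 - c ≤ 32 * u) :
    0 < c ∧ c < 1 ∧ 0 < c ^ 2 ∧ 84 * u / 64 * c ^ 2 ≤ 1 - c ^ 2 ∧ 1 - c ^ 2 ≤ 84 * u * c ^ 2 ∧
      0 < 2 * c ^ 2 - 1 ∧ 2 * c ^ 2 - 1 < 1 ∧ 2 * c ^ 2 - 1 ≤ 1 - ε ∧
      1 - (2 * c ^ 2 - 1) ≤ 128 * u := by
  have hc1 : 95 / 100 ≤ c := by linarith
  have hA : u * (195 / 100) ≤ (1 - c) * (1 + c) :=
    mul_le_mul h2 (by linarith) (by norm_num) (by linarith)
  have hB : (1 - c) * (1 + c) ≤ 32 * u * 2 :=
    mul_le_mul h3 (by linarith) (by linarith) (by linarith)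
  have e : (1 - c) * (1 + c) = 1 - c ^ 2 := by ring
  rw [e] at hA hB
  have hq : 0 < c ^ 2 := pow_pos (by linarith) 2
  have hq9 : (9 / 10 : ℝ) ≤ c ^ 2 := by linarith
  have hq1 : c ^ 2 ≤ 1 := by linarith
  have h5 : u * c ^ 2 ≤ u := mul_le_of_le_one_right hu0.le hq1
  have h6 : u * (9 / 10) ≤ u * c ^ 2 := mul_le_mul_of_nonneg_left hq9 hu0.le
  refine ⟨by linarith, by linarith, hq, by linarith, by linarith, by linarith, by linarith,
    by linarith, by linarith⟩

open Classical in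
theorem all_low (HL : HypL d γ s b C Ca cb) : ∃ c₇ : ℝ, 0 < c₇ ∧
    ∀ τ : ℝ, 0 < τ → τ ≤ 1 / 4 → ∀ m : Vec d, m ≠ 0 → ∀ ε : ℝ, 0 < ε → ε ≤ τ ^ 2 / 32 →
      ENNReal.ofReal (c₇ * τ ^ (-(2 * s))) ≤ ∫⁻ σ in {σ : Vec d | 0 < dot m σ},
        (if hh σ m ∈ AnS τ m then ENNReal.ofReal (Kn d γ (bt b ε) (co m σ)) else 0) ∂(surf d) := by
  obtain ⟨c, hc, hsh⟩ := shell_low HL.H.hd
  have hcb := HL.lo.1
  have hβ := HL.H.β0
  have hs := HL.H.hs
  have hd2 : (2 : ℝ) ≤ d := by exact_mod_cast HL.H.hd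
  have hg1 := HL.H.g1
  set D : ℝ := ((d : ℝ) - 1) / 2 with hD
  set B : ℝ := D + s with hB
  set M : ℝ := cb * 128 ^ (-B) with hM
  have hM0 : 0 < M := by positivity
  refine ⟨M * c, by positivity, fun τ hτ hτ1 m hm ε hε hε1 => ?_⟩
  set u : ℝ := τ ^ 2 / 84 with hu
  have hτ2 : τ ^ 2 ≤ 1 / 16 := by nlinarith
  have hτp : 0 < τ ^ 2 := by positivity
  have hu0 : 0 < u := by positivity
  have hu1 : u ≤ 1 / 1344 := by rw [hu]; linarith
  have hτu : τ ^ 2 = 84 * u := by rw [hu]; ring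
  have hk := nsq_dir hm
  have h1 := hsh (dir m) hk u hu0 (by linarith)
  set S : Set (Vec d) := {σ : Vec d | nsq σ = 1} ∩
    {σ : Vec d | u ≤ 1 - dot (dir m) σ ∧ 1 - dot (dir m) σ ≤ 32 * u} with hS
  have hS1m : MeasurableSet {σ : Vec d | nsq σ = 1} :=
    (isClosed_eq continuous_sq continuous_const).measurableSet
  have hSm : MeasurableSet S :=
    hS1m.inter ((isClosed_le continuous_const (continuous_const.sub (dot_cont (dir m)))).inter
      (isClosed_le (continuous_const.sub (dot_cont (dir m))) continuous_const)).measurableSet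
  have hSs : surf d S = surf d {σ : Vec d | u ≤ 1 - dot (dir m) σ ∧ 1 - dot (dir m) σ ≤ 32 * u} := by
    refine measure_congr ?_
    filter_upwards [surf_ae (d := d)] with σ hσ
    apply propext
    constructor
    · intro h; exact h.2
    · intro h; exact ⟨hσ, h⟩
  have hSsub : S ⊆ {σ : Vec d | 0 < dot m σ} := by
    intro σ hσ
    have h3 := hσ.2.2
    have h4 : 0 < co m σ := by rw [co_eq]; linarith
    unfold co at h4
    have := mul_pos h4 (len_pos hm)
    rw [div_mul_cancel₀ _ (len_pos hm).ne'] at this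
    exact this
  calc ENNReal.ofReal (M * c * τ ^ (-(2 * s)))
      ≤ ENNReal.ofReal (M * u ^ (-B)) * ENNReal.ofReal (c * u ^ D) := by
        rw [← ENNReal.ofReal_mul (by positivity)]
        refine ENNReal.ofReal_le_ofReal ?_
        have e1 : u ^ (-s) = u ^ (-B) * u ^ D := by
          rw [← Real.rpow_add hu0, hB]; congr 1; ring
        have e2 : τ ^ (-(2 * s)) = (τ ^ 2) ^ (-s) := by
          rw [← Real.rpow_natCast τ 2, ← Real.rpow_mul hτ.le]
          congr 1
          push_cast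
          ring
        have e3 : (τ ^ 2) ^ (-s) ≤ u ^ (-s) :=
          Real.rpow_le_rpow_of_nonpos hu0 (by linarith) (by linarith)
        calc M * c * τ ^ (-(2 * s)) ≤ M * c * u ^ (-s) := by
              rw [e2]
              exact mul_le_mul_of_nonneg_left e3 (by positivity)
          _ = _ := by rw [e1]; ring
    _ ≤ ENNReal.ofReal (M * u ^ (-B)) * surf d S := by rw [hSs]; gcongr
    _ = ∫⁻ _σ in S, ENNReal.ofReal (M * u ^ (-B)) ∂(surf d) := by rw [setLIntegral_const]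
    _ ≤ ∫⁻ σ in S, (if hh σ m ∈ AnS τ m then ENNReal.ofReal (Kn d γ (bt b ε) (co m σ)) else 0)
          ∂(surf d) := by
        refine setLIntegral_mono' hSm fun σ hσ => ?_
        have hdp : 0 < dot m σ := hSsub hσ
        obtain ⟨hσ1, h2, h3⟩ := hσ
        have hσ1' : nsq σ = 1 := hσ1
        rw [← co_eq] at h2 h3
        have e1 := nsq_hh hσ1' hdp
        set c' := co m σ with hc'
        have hεu : ε ≤ 84 / 32 * u := by linarith
        obtain ⟨hc0, hc2, hcc, a1, a2, hx0, hx1, hxe, a3⟩ := al_arith hu0 hu1 hεu h2 h3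
        have hm0 : 0 < nsq m := sq_pos_of_ne hm
        have h4 : hh σ m ∈ AnS τ m := by
          refine ⟨?_, ?_⟩
          · rw [e1, mul_comm]
            refine mul_le_mul_of_nonneg_left ?_ hm0.le
            rw [le_div_iff₀ hcc, hτu]
            exact a1
          · rw [e1, mul_comm (τ ^ 2)]
            refine mul_le_mul_of_nonneg_left ?_ hm0.le
            rw [div_le_iff₀ hcc, hτu]
            exact a2
        rw [if_pos h4]
        refine ENNReal.ofReal_le_ofReal ?_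
        have h5 := bt_ge (ε := ε) HL.H.bd hx0 hx1.le hxe
        have h6 := HL.lo.2 (2 * c' ^ 2 - 1) hx0.le hx1
        have h7 : (128 * u) ^ (-B) ≤ (1 - (2 * c' ^ 2 - 1)) ^ (-B) := by
          exact Real.rpow_le_rpow_of_nonpos (by linarith) a3 (by linarith)
        have h8 : (128 * u) ^ (-B) = 128 ^ (-B) * u ^ (-B) :=
          Real.mul_rpow (by norm_num) hu0.le
        have h9 : M * u ^ (-B) ≤ bt b ε (2 * c' ^ 2 - 1) := by
          rw [hM, mul_assoc, ← h8]
          exact (mul_le_mul_of_nonneg_left h7 hcb.le).trans (h6.trans h5)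
        have h10 : 1 ≤ c' ^ (-2 - γ) :=
          Real.one_le_rpow_of_pos_of_le_one_of_nonpos hc0 hc2.le (by linarith)
        have h11 : (1 : ℝ) ≤ 2 ^ (d - 1) := one_le_pow₀ (by norm_num)
        have h12 : 0 < u ^ (-B) := Real.rpow_pos_of_pos hu0 _
        have hb0 : 0 ≤ M * u ^ (-B) := by positivity
        have hb1 : 0 ≤ bt b ε (2 * c' ^ 2 - 1) := hb0.trans h9
        unfold Kn
        refine h9.trans (le_mul_of_one_le_left hb1 ?_)
        exact one_le_mul_of_one_le_of_one_le h11 h10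
    _ ≤ _ := lintegral_mono_set hSsub

end Pool.Agent.H82.NT
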