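import Pool.Agent.H82.NT.GainN

/-!
# NT.OpN : the nonlinear touching inequality

`op_nl_len` : `gain_nl`, `cut_leg` and `boltz_tendsto`; all integrals are dominated by `∫ g |v-z|^(1+a)` (`freq_integrable`). `op_nl` : `0 ≤ V_e Pg ≤ |v-z|^(1+a)`.
-/

set_option autoImplicit false

open MeasureTheory Set Filter Topology Pool.Agent.H25.Kin Pool.Agent.H82.BK Pool.Agent.H82.CM
open Pool.Agent.H48.PL Pool.Agent.H48.PI
open scoped ENNReal

namespace Pool.Agent.H82.NT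

variable {d : ℕ} {s a C Ca cb : ℝ} {b : ℝ → ℝ}

private lemma on_abs (ha : 0 < a) (e : Fin d) (v z : Vec d) :
    |v e - z e| ^ (1 + a) ≤ len (v - z) ^ (1 + a) := by
  refine Real.rpow_le_rpow (abs_nonneg _) ?_ (by linarith)
  exact abs_coord_le (v - z) e

lemma VPh4_le_len (ha : 0 < a) (e : Fin d) (v z : Vec d) :
    (v e - z e) * Ph4 e a v z ≤ len (v - z) ^ (1 + a) := by
  refine (VPh4_le ha e v z).trans ?_
  rw [VPh_eq ha]
  refine le_trans ?_ (on_abs ha e v z)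
  refine mul_le_of_le_one_left (Real.rpow_nonneg (abs_nonneg _) _) ?_
  exact pow_le_one₀ (le_min zero_le_one (div_nonneg (jb_pos z).le (jb_pos v).le)) (min_le_left _ _)

lemma VPg_eq (ha : 0 < a) (e : Fin d) (v z : Vec d) :
    (v e - z e) * Pg e a v z = jb v ^ (-a) * |v e - z e| ^ (1 + a) := by
  unfold Pg
  rw [← mul_sp ha]
  ring

lemma VPg_nonneg (ha : 0 < a) (e : Fin d) (v z : Vec d) : 0 ≤ (v e - z e) * Pg e a v z := by
  rw [VPg_eq ha]
  exact mul_nonneg (Real.rpow_nonneg (jb_pos v).le _) (Real.rpow_nonneg (abs_nonneg _) _)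

lemma VPg_le_len (ha : 0 < a) (e : Fin d) (v z : Vec d) :
    (v e - z e) * Pg e a v z ≤ len (v - z) ^ (1 + a) := by
  rw [VPg_eq ha]
  refine le_trans ?_ (on_abs ha e v z)
  refine mul_le_of_le_one_left (Real.rpow_nonneg (abs_nonneg _) _) ?_
  exact Real.rpow_le_one_of_one_le_of_nonpos (one_le_jb v) (by linarith)

theorem op_nl_len (HL : HypL d (1 + a) s b C Ca cb) (h1 : 2 * s < a) (ha1 : a ≤ 1) {p : ℕ}
    (hp : (d : ℝ) + (1 + a) + 4 ≤ 2 * p) (e : Fin d) :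
    ∃ K κ δ₁ : ℝ, 0 ≤ K ∧ 0 < κ ∧ 0 < δ₁ ∧ δ₁ ≤ 1 ∧ ∀ C₀ R : ℝ, 0 ≤ C₀ → 0 ≤ R → ∃ N : ℝ, 0 ≤ N ∧
      ∀ g g1 : Vec d → ℝ, Nice g → (∀ u, 0 ≤ g u) → Measurable g1 → (∀ u, 0 ≤ g1 u) →
      (∀ u, g1 u ≤ g u) → (∀ u, g1 u ≤ C₀) → (∀ u, R < jb u → g1 u = 0) →
      ∀ v : Vec d, Touch δ₁ a p g v → N ≤ g v * (1 + nsq v) ^ p →
      boltzQ (1 + a) b g v + κ * g v * (∫ z, g1 z * len (v - z) ^ (1 + a)) ≤
        K * g v * ∫ z, (v e - z e) * Ph4 e a v z * (g z - g1 z) := by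
  have H := HL.H
  have hs := H.hs
  have ha : 0 < a := by linarith
  obtain ⟨K, κ, δ₁, ε₀, hK, hκ, hδ₁, hδ₁1, hε₀, hgl⟩ := gain_nl HL h1 ha1 hp e
  refine ⟨K, κ, δ₁, hK, hκ, hδ₁, hδ₁1, fun C₀ R hC₀ hR => ?_⟩
  obtain ⟨N, hN, hgl'⟩ := hgl C₀ (R ^ 2) hC₀ (sq_nonneg R)
  refine ⟨N, hN, fun g g1 hg hg0 hg1m hg10 hg1g hg1C hg1R v ht hNv => ?_⟩
  have hgv := hg0 v
  have hlen0 : ∀ z : Vec d, 0 ≤ len (v - z) ^ (1 + a) := fun z => Real.rpow_nonneg (len_nonneg _) _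
  have hlm : Measurable fun z : Vec d => len (v - z) ^ (1 + a) :=
    (continuous_len.comp (continuous_const.sub continuous_id)).measurable.pow_const _
  have hint := freq_integrable H.hd H.g1 H.g2 hg v
  have hint1 : Integrable fun z : Vec d => g1 z * len (v - z) ^ (1 + a) := by
    refine hint.mono (hg1m.mul hlm).aestronglyMeasurable (Eventually.of_forall fun z => ?_)
    rw [Real.norm_eq_abs, Real.norm_eq_abs, abs_of_nonneg (mul_nonneg (hg10 z) (hlen0 z)),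
      abs_of_nonneg (mul_nonneg (hg0 z) (hlen0 z))]
    exact mul_le_mul_of_nonneg_right (hg1g z) (hlen0 z)
  have hw0 : ∀ z, 0 ≤ (v e - z e) * Ph4 e a v z := fun z => VPh4_nonneg ha e v z
  have hg20 : ∀ z, 0 ≤ g z - g1 z := fun z => sub_nonneg.2 (hg1g z)
  have hg2m : Measurable fun z => g z - g1 z := hg.cont.measurable.sub hg1m
  have hwm : Measurable fun z : Vec d => (v e - z e) * Ph4 e a v z := (VPh4_cont ha e v).measurable
  have hint2 : Integrable fun z : Vec d => (v e - z e) * Ph4 e a v z * (g z - g1 z) := by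
    refine hint.mono (hwm.mul hg2m).aestronglyMeasurable (Eventually.of_forall fun z => ?_)
    rw [Real.norm_eq_abs, Real.norm_eq_abs, abs_of_nonneg (mul_nonneg (hw0 z) (hg20 z)),
      abs_of_nonneg (mul_nonneg (hg0 z) (hlen0 z)), mul_comm (g z)]
    refine mul_le_mul (VPh4_le_len ha e v z) ?_ (hg20 z) (hlen0 z)
    have := hg10 z
    linarith
  have hfin : (∫⁻ m, ENNReal.ofReal (len m ^ (1 + a) * g (v - m))) ≠ ⊤ := by
    have e1 : ∫⁻ m, ENNReal.ofReal (len m ^ (1 + a) * g (v - m)) =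
        ∫⁻ z, ENNReal.ofReal (g z * len (v - z) ^ (1 + a)) := by
      rw [← lintegral_sub_left_eq_self
        (fun z => ENNReal.ofReal (g z * len (v - z) ^ (1 + a))) v]
      refine lintegral_congr fun m => ?_
      rw [sub_sub_cancel, mul_comm]
    rw [e1]
    exact hint.lintegral_lt_top.ne
  have hS : 0 ≤ κ * g v * (∫ z, g1 z * len (v - z) ^ (1 + a)) :=
    mul_nonneg (mul_nonneg hκ.le hgv) (integral_nonneg fun z => mul_nonneg (hg10 z) (hlen0 z))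
  have hRr : 0 ≤ K * g v * ∫ z, (v e - z e) * Ph4 e a v z * (g z - g1 z) :=
    mul_nonneg (mul_nonneg hK hgv) (integral_nonneg fun z => mul_nonneg (hw0 z) (hg20 z))
  have key1 : ENNReal.ofReal (κ * g v) * (∫⁻ m, ENNReal.ofReal (len m ^ (1 + a) * g1 (v - m))) =
      ENNReal.ofReal (κ * g v * (∫ z, g1 z * len (v - z) ^ (1 + a))) := by
    rw [ENNReal.ofReal_mul (p := κ * g v) (by positivity), ofReal_integral_eq_lintegral_ofReal hint1
      (Eventually.of_forall fun z => mul_nonneg (hg10 z) (hlen0 z))]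
    congr 1
    rw [← lintegral_sub_left_eq_self
      (fun z => ENNReal.ofReal (g1 z * len (v - z) ^ (1 + a))) v]
    refine lintegral_congr fun m => ?_
    rw [sub_sub_cancel, mul_comm]
  have key2 : ∫⁻ z, ENNReal.ofReal (K * g v * ((g z - g1 z) * ((v e - z e) * Ph4 e a v z))) =
      ENNReal.ofReal (K * g v * ∫ z, (v e - z e) * Ph4 e a v z * (g z - g1 z)) := by
    rw [← integral_const_mul, ofReal_integral_eq_lintegral_ofReal (hint2.const_mul _)]
    · refine lintegral_congr fun z => ?_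
      congr 1; ring
    · exact Eventually.of_forall fun z =>
        mul_nonneg (mul_nonneg hK hgv) (mul_nonneg (hw0 z) (hg20 z))
  have hρ : ∀ u, g1 u ≠ 0 → 1 + nsq u ≤ R ^ 2 := by
    intro u hu
    have h2 : jb u ≤ R := by
      by_contra h3
      exact hu (hg1R u (not_le.1 h3))
    rw [← jb_sq]
    exact pow_le_pow_left₀ (jb_pos u).le h2 2
  have hlim := (boltz_tendsto H hg v).add_const (κ * g v * (∫ z, g1 z * len (v - z) ^ (1 + a)))
  refine le_of_tendsto hlim ?_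
  filter_upwards [Ioc_mem_nhdsGT hε₀] with ε hε
  refine cut_leg H hg hg0 hε.1 v hRr hS ?_
  rw [← key1, ← key2]
  exact hgl' g g1 (fun z => g z - g1 z) hg.cont.measurable hg1m hg2m hg0 hg10 hg20
    (fun u => by ring) hg1C hρ v hfin ht hNv ε hε.1 hε.2

/-- **the nonlinear touching inequality** -/
theorem op_nl (HL : HypL d (1 + a) s b C Ca cb) (h1 : 2 * s < a) (ha1 : a ≤ 1) {p : ℕ}
    (hp : (d : ℝ) + (1 + a) + 4 ≤ 2 * p) (e : Fin d) :
    ∃ K κ δ₁ : ℝ, 0 ≤ K ∧ 0 < κ ∧ 0 < δ₁ ∧ δ₁ ≤ 1 ∧ ∀ C₀ R : ℝ, 0 ≤ C₀ → 0 ≤ R → ∃ N : ℝ, 0 ≤ N ∧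
      ∀ g g1 : Vec d → ℝ, Nice g → (∀ u, 0 ≤ g u) → Measurable g1 → (∀ u, 0 ≤ g1 u) →
      (∀ u, g1 u ≤ g u) → (∀ u, g1 u ≤ C₀) → (∀ u, R < jb u → g1 u = 0) →
      ∀ v : Vec d, Touch δ₁ a p g v → N ≤ g v * (1 + nsq v) ^ p →
      boltzQ (1 + a) b g v ≤ g v * (K * (∫ z, (v e - z e) * Ph4 e a v z * (g z - g1 z)) -
        κ * ∫ z, (v e - z e) * Pg e a v z * g1 z) := by
  have H := HL.H
  have hs := H.hs
  have ha : 0 < a := by linarith
  obtain ⟨K, κ, δ₁, hK, hκ, hδ₁, hδ₁1, hop⟩ := op_nl_len HL h1 ha1 hp e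
  refine ⟨K, κ, δ₁, hK, hκ, hδ₁, hδ₁1, fun C₀ R hC₀ hR => ?_⟩
  obtain ⟨N, hN, hop'⟩ := hop C₀ R hC₀ hR
  refine ⟨N, hN, fun g g1 hg hg0 hg1m hg10 hg1g hg1C hg1R v ht hNv => ?_⟩
  have h2 := hop' g g1 hg hg0 hg1m hg10 hg1g hg1C hg1R v ht hNv
  have hgv := hg0 v
  have hint := freq_integrable H.hd H.g1 H.g2 hg v
  have hlen0 : ∀ z : Vec d, 0 ≤ len (v - z) ^ (1 + a) := fun z => Real.rpow_nonneg (len_nonneg _) _
  have hlm : Measurable fun z : Vec d => len (v - z) ^ (1 + a) :=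
    (continuous_len.comp (continuous_const.sub continuous_id)).measurable.pow_const _
  have hint1 : Integrable fun z : Vec d => g1 z * len (v - z) ^ (1 + a) := by
    refine hint.mono (hg1m.mul hlm).aestronglyMeasurable (Eventually.of_forall fun z => ?_)
    rw [Real.norm_eq_abs, Real.norm_eq_abs, abs_of_nonneg (mul_nonneg (hg10 z) (hlen0 z)),
      abs_of_nonneg (mul_nonneg (hg0 z) (hlen0 z))]
    exact mul_le_mul_of_nonneg_right (hg1g z) (hlen0 z)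
  have h3 : (∫ z, (v e - z e) * Pg e a v z * g1 z) ≤ ∫ z, g1 z * len (v - z) ^ (1 + a) := by
    refine integral_mono_of_nonneg (Eventually.of_forall fun z =>
      mul_nonneg (VPg_nonneg ha e v z) (hg10 z)) hint1 (Eventually.of_forall fun z => ?_)
    show (v e - z e) * Pg e a v z * g1 z ≤ g1 z * len (v - z) ^ (1 + a)
    rw [mul_comm (g1 z)]
    exact mul_le_mul_of_nonneg_right (VPg_le_len ha e v z) (hg10 z)
  have h4 := mul_le_mul_of_nonneg_left h3 (mul_nonneg hκ.le hgv)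
  calc boltzQ (1 + a) b g v
      ≤ K * g v * (∫ z, (v e - z e) * Ph4 e a v z * (g z - g1 z)) -
        κ * g v * (∫ z, (v e - z e) * Pg e a v z * g1 z) := by linarith
    _ = _ := by ring

end Pool.Agent.H82.NT
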