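import Pool.Agent.H82.NT.All

/-!
# NT.AllB : medium velocities, all directions

The proof of `thin_bound` (Pool/Agent/H48/PL/Thin.lean) with `AnS` in place of `SdS` and `all_low` in place of `thin_low`: no condition on the
direction of `m`.
-/

set_option autoImplicit false

open MeasureTheory Set Filter Topology Pool.Agent.H25.Kin Pool.Agent.H82.BK Pool.Agent.H82.CM
open Pool.Agent.H48.PL
open scoped ENNReal

namespace Pool.Agent.H82.NT

variable {d : ℕ} {γ s a C Ca cb : ℝ} {b : ℝ → ℝ}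

private lemma th_small {p t t₀ : ℝ} (hp : 0 < p) (ht : 0 < t) (ht₀ : 0 < t₀) :
    ∃ u : ℝ, 0 < u ∧ u ≤ t₀ ∧ u ^ p ≤ t := by
  refine ⟨min t₀ (t ^ (1 / p)), lt_min ht₀ (by positivity), min_le_left _ _, ?_⟩
  have h0 : 0 ≤ min t₀ (t ^ (1 / p)) := le_min ht₀.le (by positivity)
  refine (Real.rpow_le_rpow h0 (min_le_right _ _) hp.le).trans (le_of_eq ?_)
  rw [← Real.rpow_mul ht.le, one_div, inv_mul_cancel₀ hp.ne', Real.rpow_one]

/-- the comparison function with the perturbation -/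
private noncomputable def thT (δ a : ℝ) (p : ℕ) (c : ℝ) (v u : Vec d) : ℝ :=
  Tb p c v u + δ * (Tb p c v u * mm a v u)

private lemma thT_ge {δ a c : ℝ} {p : ℕ} (hδ : 0 ≤ δ) (hc : 0 ≤ c) (v u : Vec d) :
    Tb p c v u ≤ thT δ a p c v u := by
  unfold thT
  have h1 := mul_nonneg hδ (mul_nonneg (Tb_nonneg (p := p) hc v u) (mm_nonneg a v u))
  linarith

private lemma thT_nonneg {δ a c : ℝ} {p : ℕ} (hδ : 0 ≤ δ) (hc : 0 ≤ c) (v u : Vec d) :
    0 ≤ thT δ a p c v u := (Tb_nonneg (p := p) hc v u).trans (thT_ge hδ hc v u)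

private lemma thT_meas (δ a : ℝ) (p : ℕ) (c : ℝ) (v : Vec d) : Measurable (thT δ a p c v) :=
  (Tb_meas p c v).add (measurable_const.mul ((Tb_meas p c v).mul (mm_meas a v)))

private lemma th_mm_self {a : ℝ} (ha : 0 < a) (v : Vec d) : mm a v v = 0 := by
  unfold mm
  have h1 : nsq (v - v) = 0 := by rw [sub_self]; unfold nsq; simp
  rw [h1, zero_div, min_eq_right (by norm_num), Real.zero_rpow (by linarith)]

private lemma thT_self {δ a c : ℝ} {p : ℕ} (ha : 0 < a) (v : Vec d) : thT δ a p c v v = c := by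
  unfold thT
  rw [th_mm_self ha, Tb_self]
  ring

private lemma thT_touch {δ a c : ℝ} {p : ℕ} (ha : 0 < a) (v : Vec d) :
    Touch δ a p (thT δ a p c v) v := by
  intro u
  have h1 := Tb_eq p c v u
  rw [Tb_self] at h1
  rw [thT_self ha]
  refine le_of_eq ?_
  unfold thT
  calc (Tb p c v u + δ * (Tb p c v u * mm a v u)) * (1 + nsq u) ^ p
      = (Tb p c v u * (1 + nsq u) ^ p) * (1 + δ * mm a v u) := by ring
    _ = _ := by rw [h1]

private lemma th_nm {L : ℝ} {v m : Vec d} (h : nsq (v - m) ≤ L * (1 + nsq v)) :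
    nsq m ≤ (2 + 2 * L) * (1 + nsq v) := by
  have e1 := nsq_par v (v - m)
  have e2 : v - (v - m) = m := by abel
  rw [e2] at e1
  have e3 := sq_nonneg' (v + (v - m))
  have e4 := sq_nonneg' v
  nlinarith

open Classical in
/-- the small deflections -/
private noncomputable def thSd (τ γ : ℝ) (b : ℝ → ℝ) (ε : ℝ) (m σ : Vec d) : ℝ≥0∞ :=
  if hh σ m ∈ AnS τ m then ENNReal.ofReal (Kn d γ (bt b ε) (co m σ)) else 0

open Classical in
private noncomputable def thSg (τ γ : ℝ) (b : ℝ → ℝ) (ε : ℝ) (g : Vec d → ℝ)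
    (v m σ : Vec d) : ℝ≥0∞ :=
  if hh σ m ∈ AnS τ m then
    ENNReal.ofReal (Kn d γ (bt b ε) (co m σ) * g (v + hh σ m)) else 0

open Classical in
private noncomputable def thRg (θ L γ : ℝ) (b : ℝ → ℝ) (ε : ℝ) (g : Vec d → ℝ)
    (v m σ : Vec d) : ℝ≥0∞ :=
  if (v - m, v + hh σ m) ∈ RegS θ L v then
    ENNReal.ofReal (Kn d γ (bt b ε) (co m σ) * g (v + hh σ m)) else 0

private lemma th_Knm (hb : Measurable b) (ε : ℝ) (m : Vec d) :
    Measurable fun σ : Vec d => Kn d γ (bt b ε) (co m σ) := by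
  have hcom : Measurable fun σ : Vec d => co m σ :=
    measurable_co.comp (measurable_const.prodMk measurable_id)
  have hbt := measurable_bt (b := b) hb ε
  have hKm' : Measurable (Kn d γ (bt b ε)) := by
    unfold Kn
    have h1 : Measurable fun c : ℝ => c ^ (-2 - γ) := measurable_id.pow_const _
    have h2 : Measurable fun c : ℝ => bt b ε (2 * c ^ 2 - 1) := hbt.comp (by fun_prop)
    exact (measurable_const.mul h1).mul h2
  exact hKm'.comp hcom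

private lemma th_hhm (m : Vec d) : Measurable fun σ : Vec d => hh σ m := by
  have h1 : Measurable fun σ : Vec d => ((m, σ) : Vec d × Vec d) :=
    measurable_const.prodMk measurable_id
  have h2 := (measurable_hh (d := d)).comp h1
  exact h2

private lemma thSd_meas (hb : Measurable b) (τ ε : ℝ) (m : Vec d) :
    Measurable fun σ => thSd τ γ b ε m σ := by
  have hSd : MeasurableSet {σ : Vec d | hh σ m ∈ AnS τ m} := by
    have h2 : Measurable fun σ : Vec d => (m, hh σ m) := measurable_const.prodMk (th_hhm m)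
    exact h2 (measurableSet_AnS τ)
  exact Measurable.ite hSd (th_Knm hb ε m).ennreal_ofReal measurable_const

private lemma thRg_meas (hb : Measurable b) (θ L ε : ℝ) {g : Vec d → ℝ} (hg : Measurable g) (v m : Vec d) :
    Measurable fun σ => thRg θ L γ b ε g v m σ := by
  have hRg : MeasurableSet {σ : Vec d | (v - m, v + hh σ m) ∈ RegS θ L v} := by
    have h2 : Measurable fun σ : Vec d => (v - m, v + hh σ m) :=
      measurable_const.prodMk (measurable_const.add (th_hhm m))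
    exact h2 (measurableSet_RegS θ L v)
  exact Measurable.ite hRg
    ((th_Knm hb ε m).mul (hg.comp (measurable_const.add (th_hhm m)))).ennreal_ofReal measurable_const

private lemma th_pt (H : Hyp d γ s b C Ca) (p : ℕ) {L τ θ δ₁ ε : ℝ}
    (hτ5 : τ ^ 2 * (2 + 2 * L) ≤ 1 / 8) (hδ₁ : 0 ≤ δ₁) (hε : 0 < ε) {g : Vec d → ℝ}
    (hg0 : ∀ u, 0 ≤ g u) {v m : Vec d} (hT : Touch δ₁ a p g v) (hv : nsq (v - m) ≤ L * (1 + nsq v))
    {σ : Vec d} (hσ : nsq σ = 1) (hmσ : 0 < dot m σ) :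
    thRg θ L γ b ε g v m σ + ENNReal.ofReal (g v / 4 ^ p) * thSd τ γ b ε m σ ≤
      thSg τ γ b ε g v m σ + thRg θ L γ b ε (thT δ₁ a p (g v) v) v m σ := by
  have hK0 := fast_Kn0 (γ := γ) H.bd hε hσ hmσ
  have hnm := th_nm hv
  have hgv := hg0 v
  have hA : 0 < 1 + nsq v := by have := sq_nonneg' v; linarith
  have hgT : ∀ u, g u ≤ thT δ₁ a p (g v) v u := fun u => Tb_touch hT u
  unfold thRg thSd thSg
  by_cases hS : hh σ m ∈ AnS τ m
  · have hn : nsq (hh σ m) ≤ (1 + nsq v) / 8 := by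
      refine hS.2.trans ?_
      calc τ ^ 2 * nsq m ≤ τ ^ 2 * ((2 + 2 * L) * (1 + nsq v)) :=
            mul_le_mul_of_nonneg_left hnm (sq_nonneg _)
        _ = (τ ^ 2 * (2 + 2 * L)) * (1 + nsq v) := by ring
        _ ≤ 1 / 8 * (1 + nsq v) := mul_le_mul_of_nonneg_right hτ5 hA.le
        _ = _ := by ring
    have hR : (v - m, v + hh σ m) ∈ RegS θ L v := by
      refine ⟨?_, ?_⟩
      · rintro ⟨_, q2⟩
        change (1 + nsq v) / 4 ≤ nsq (v + hh σ m - v) at q2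
        rw [add_sub_cancel_left] at q2
        linarith
      · rintro ⟨q1, _⟩
        change L * (1 + nsq v) < nsq (v - m) at q1
        linarith
    have hTl : g v / 4 ^ p ≤ thT δ₁ a p (g v) v (v + hh σ m) := by
      refine (Tb_low (p := p) hgv (v := v) (u := v + hh σ m) ?_).trans (thT_ge hδ₁ hgv v _)
      rw [add_sub_cancel_left]
      linarith
    rw [if_pos hR, if_pos hS, if_pos hS, if_pos hR]
    refine add_le_add le_rfl ?_
    rw [← ENNReal.ofReal_mul (by positivity)]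
    refine ENNReal.ofReal_le_ofReal ?_
    rw [mul_comm]
    exact mul_le_mul_of_nonneg_left hTl hK0
  · rw [if_neg hS, if_neg hS, mul_zero, add_zero, zero_add]
    split_ifs
    · exact ENNReal.ofReal_le_ofReal (mul_le_mul_of_nonneg_left (hgT _) hK0)
    · exact le_rfl

private lemma th_main (H : Hyp d γ s b C Ca) (p : ℕ) {L τ θ δ₁ ε : ℝ}
    (hτ5 : τ ^ 2 * (2 + 2 * L) ≤ 1 / 8) (hδ₁ : 0 ≤ δ₁) (hε : 0 < ε) {g : Vec d → ℝ}
    (hg0 : ∀ u, 0 ≤ g u) {v m : Vec d} (hT : Touch δ₁ a p g v) (hv : nsq (v - m) ≤ L * (1 + nsq v)) :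
    GMg γ b ε g (RegS θ L v) v m + ENNReal.ofReal (g v / 4 ^ p) *
      ∫⁻ σ in {σ : Vec d | 0 < dot m σ}, thSd τ γ b ε m σ ∂(surf d) ≤
      AM τ γ b ε g v m + GMg γ b ε (thT δ₁ a p (g v) v) (RegS θ L v) v m := by
  have hSm := thSd_meas (γ := γ) (b := b) H.bm τ ε m
  have hJm := thRg_meas (γ := γ) (b := b) H.bm θ L ε (thT_meas δ₁ a p (g v) v) v m
  have e1 : GMg γ b ε g (RegS θ L v) v m =
      ∫⁻ σ in {σ : Vec d | 0 < dot m σ}, thRg θ L γ b ε g v m σ ∂(surf d) := rfl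
  have e2 : GMg γ b ε (thT δ₁ a p (g v) v) (RegS θ L v) v m =
      ∫⁻ σ in {σ : Vec d | 0 < dot m σ}, thRg θ L γ b ε (thT δ₁ a p (g v) v) v m σ ∂(surf d) := rfl
  have e3 : AM τ γ b ε g v m =
      ∫⁻ σ in {σ : Vec d | 0 < dot m σ}, thSg τ γ b ε g v m σ ∂(surf d) := rfl
  rw [e1, e2, e3, ← lintegral_const_mul _ hSm, ← lintegral_add_right _ (hSm.const_mul _),
    ← lintegral_add_right _ hJm]
  refine lintegral_mono_ae ?_
  filter_upwards [ae_restrict_of_ae surf_ae, ae_restrict_mem (measurableSet_half m)] with σ hσ hmσ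
  exact th_pt H p hτ5 hδ₁ hε hg0 hT hv hσ hmσ

private lemma th_med (H : Hyp d γ s b C Ca) (h1 : 2 * s < a) (ha1 : a ≤ 1) (p : ℕ) :
    ∃ K : ℝ, 0 ≤ K ∧ ∀ (θ L δ₁ : ℝ), 0 ≤ δ₁ → δ₁ ≤ 1 → 1 ≤ L → ∀ c : ℝ, 0 ≤ c →
      ∀ v m : Vec d, m ≠ 0 → nsq (v - m) ≤ L * (1 + nsq v) → ∀ ε > 0,
      GMg γ b ε (thT δ₁ a p c v) (RegS θ L v) v m ≤ ENNReal.ofReal c * BB b ε (dir m) +
        ENNReal.ofReal (K * (1 + (2 + 2 * L)) ^ s * c) := by
  have hs := H.hs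
  have ha : 0 < a := by linarith
  obtain ⟨K₁, hK₁, hmed⟩ := med_pert H h1 ha1 p
  refine ⟨K₁, hK₁, fun θ L δ₁ hδ₁ hδ₁1 hL c hc v m hm hv ε hε => ?_⟩
  have hA : 0 < 1 + nsq v := by have := sq_nonneg' v; linarith
  have hm1 := hmed θ L δ₁ hδ₁ hδ₁1 (thT δ₁ a p c v) (thT_meas δ₁ a p c v)
    (fun u => thT_nonneg hδ₁ hc v u) v (thT_touch ha v) m hm ε hε
  rw [thT_self ha] at hm1
  have hnm := th_nm hv
  have hQ : (1 + nsq m / (1 + nsq v)) ^ s ≤ (1 + (2 + 2 * L)) ^ s := by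
    refine Real.rpow_le_rpow ?_ ?_ hs.le
    · have := div_nonneg (sq_nonneg' m) hA.le
      linarith
    · have : nsq m / (1 + nsq v) ≤ 2 + 2 * L := (div_le_iff₀ hA).2 hnm
      linarith
  refine hm1.trans (add_le_add le_rfl (ENNReal.ofReal_le_ofReal ?_))
  calc K₁ * c * (1 + nsq m / (1 + nsq v)) ^ s ≤ K₁ * c * (1 + (2 + 2 * L)) ^ s :=
        mul_le_mul_of_nonneg_left hQ (by positivity)
    _ = _ := by ring

private lemma th_tau {s M q L : ℝ} (hs : 0 < s) (hM : 0 ≤ M) (hq : 0 < q) (hL : 1 ≤ L) :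
    ∃ τ : ℝ, 0 < τ ∧ τ ≤ 1 / 4 ∧ τ ^ 2 * (2 + 2 * L) ≤ 1 / 8 ∧ M ≤ q * τ ^ (-(2 * s)) := by
  have hΛ0 : 0 < 2 + 2 * L := by linarith
  obtain ⟨τ, hτ, hτ1, hτ2⟩ := th_small (p := 2 * s) (t := q / (M + 1))
    (t₀ := min (1 / 4) (1 / (8 * (2 + 2 * L))))
    (by linarith) (by positivity) (lt_min (by norm_num) (by positivity))
  have hτ3 : τ ≤ 1 / 4 := hτ1.trans (min_le_left _ _)
  have hτ4 : τ ≤ 1 / (8 * (2 + 2 * L)) := hτ1.trans (min_le_right _ _)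
  refine ⟨τ, hτ, hτ3, ?_, ?_⟩
  · have e1 : τ ^ 2 ≤ τ := by nlinarith
    have e2 : τ * (2 + 2 * L) ≤ 1 / 8 := by
      calc τ * (2 + 2 * L) ≤ 1 / (8 * (2 + 2 * L)) * (2 + 2 * L) :=
            mul_le_mul_of_nonneg_right hτ4 hΛ0.le
        _ = 1 / 8 := by field_simp
    calc τ ^ 2 * (2 + 2 * L) ≤ τ * (2 + 2 * L) := mul_le_mul_of_nonneg_right e1 hΛ0.le
      _ ≤ 1 / 8 := e2
  · have e1 : 0 < τ ^ (2 * s) := Real.rpow_pos_of_pos hτ _
    rw [Real.rpow_neg hτ.le, ← div_eq_mul_inv, le_div_iff₀ e1]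
    have e2 : τ ^ (2 * s) * (M + 1) ≤ q := (le_div_iff₀ (by positivity)).1 hτ2
    nlinarith

theorem all_bound (HL : HypL d γ s b C Ca cb) (h1 : 2 * s < a) (ha1 : a ≤ 1) (p : ℕ)
    {L : ℝ} (hL : 1 ≤ L) {K₃ : ℝ} (hK₃ : 0 ≤ K₃) :
    ∃ τ ε₀ : ℝ, 0 < τ ∧ τ ≤ 1 / 4 ∧ τ ^ 2 * (2 + 2 * L) ≤ 1 / 8 ∧ 0 < ε₀ ∧
    ∀ (θ δ₁ : ℝ), 0 ≤ δ₁ → δ₁ ≤ 1 → ∀ g : Vec d → ℝ, Measurable g → (∀ u, 0 ≤ g u) → ∀ v : Vec d,
      Touch δ₁ a p g v → ∀ m : Vec d, m ≠ 0 → nsq (v - m) ≤ L * (1 + nsq v) →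
      ∀ ε : ℝ, 0 < ε → ε ≤ ε₀ →
      GMg γ b ε g (RegS θ L v) v m + ENNReal.ofReal (K₃ * g v) ≤
        ENNReal.ofReal (g v) * BB b ε (dir m) + AM τ γ b ε g v m := by
  obtain ⟨K₁, hK₁, hmed⟩ := th_med HL.H h1 ha1 p
  obtain ⟨c₆, hc₆, hlow⟩ := all_low HL
  obtain ⟨q, hq⟩ : ∃ q : ℝ, q = c₆ / 4 ^ p := ⟨_, rfl⟩
  obtain ⟨Z, hZ⟩ : ∃ Z : ℝ, Z = K₁ * (1 + (2 + 2 * L)) ^ s := ⟨_, rfl⟩
  have hq0 : 0 < q := by rw [hq]; positivity
  have hZ0 : 0 ≤ Z := by rw [hZ]; positivity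
  obtain ⟨τ, hτ, hτ3, hτ5, hτ6⟩ := th_tau (M := Z + K₃) (q := q) (L := L) HL.H.hs (by linarith) hq0 hL
  refine ⟨τ, τ ^ 2 / 32, hτ, hτ3, hτ5, by positivity, ?_⟩
  intro θ δ₁ hδ₁ hδ₁1 g hg hg0 v hT m hm hmed1 ε hε hε1
  have hgv := hg0 v
  have hm2 := hmed θ L δ₁ hδ₁ hδ₁1 hL (g v) hgv v m hm hmed1 ε hε
  rw [← hZ] at hm2
  have hmain := th_main (θ := θ) HL.H p hτ5 hδ₁ hε hg0 hT hmed1
  have hl : ENNReal.ofReal (c₆ * τ ^ (-(2 * s))) ≤
      ∫⁻ σ in {σ : Vec d | 0 < dot m σ}, thSd τ γ b ε m σ ∂(surf d) :=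
    hlow τ hτ hτ3 m hm ε hε hε1
  have hfin : ENNReal.ofReal (Z * g v) ≠ ⊤ := ENNReal.ofReal_ne_top
  have hsum : ENNReal.ofReal (K₃ * g v) + ENNReal.ofReal (Z * g v) ≤
      ENNReal.ofReal (g v / 4 ^ p) *
      ∫⁻ σ in {σ : Vec d | 0 < dot m σ}, thSd τ γ b ε m σ ∂(surf d) := by
    refine le_trans ?_ (mul_le_mul_right hl _)
    rw [← ENNReal.ofReal_add (by positivity) (by positivity), ← ENNReal.ofReal_mul (by positivity)]
    refine ENNReal.ofReal_le_ofReal ?_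
    calc K₃ * g v + Z * g v = g v * (Z + K₃) := by ring
      _ ≤ g v * (q * τ ^ (-(2 * s))) := mul_le_mul_of_nonneg_left hτ6 hgv
      _ = g v / 4 ^ p * (c₆ * τ ^ (-(2 * s))) := by rw [hq]; ring
  refine (ENNReal.add_le_add_iff_right hfin).1 ?_
  calc GMg γ b ε g (RegS θ L v) v m + ENNReal.ofReal (K₃ * g v) + ENNReal.ofReal (Z * g v)
      = GMg γ b ε g (RegS θ L v) v m + (ENNReal.ofReal (K₃ * g v) +
        ENNReal.ofReal (Z * g v)) := by rw [add_assoc]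
    _ ≤ GMg γ b ε g (RegS θ L v) v m + ENNReal.ofReal (g v / 4 ^ p) *
      ∫⁻ σ in {σ : Vec d | 0 < dot m σ}, thSd τ γ b ε m σ ∂(surf d) := add_le_add le_rfl hsum
    _ ≤ AM τ γ b ε g v m + GMg γ b ε (thT δ₁ a p (g v) v) (RegS θ L v) v m := hmain
    _ ≤ AM τ γ b ε g v m + (ENNReal.ofReal (g v) * BB b ε (dir m) +
      ENNReal.ofReal (Z * g v)) := add_le_add le_rfl hm2
    _ = _ := by rw [← add_assoc, add_comm (AM τ γ b ε g v m)]

end Pool.Agent.H82.NT
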