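import Pool.Agent.H48.PL.Swap
import Pool.Agent.H48.PL.Wgt
import Pool.Agent.H48.PI.Defs
import Pool.Agent.H82.CM.Op
import Pool.Agent.H82.NT.AllB
import Pool.Agent.H82.NT.SwapA

/-!
# NT.GainN : the nonlinear touching inequality, gain and loss

`g = g1 + g2`, `g1 ≤ C₀` supported in `1+|u|² ≤ ρ`, touching point `v` with `g v (1+|v|²)^p ≥ N`. Outer variable `z = v - m` with `g1` or `g2`, inner
variable with the full `g`. `A = 1+nsq v`, `x = g v`, `G = GMg + GEg`, `B = x BB (dir m)`.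
* `z` slow or fast: `G + κ x ≤ B` (`slow_pert`, `fast_pert` with `K₂ + 1`, `exc_pert`).
* medium, outer `g1`: `all_bound` with `K₃ = K₂ + 2`, `AM g ≤ AM g1 + AM g2`, `AM g1 ≤ x` (`am_le`; on `v + AnS τ m` one has `A/4 ≤ 1+nsq u`, so `g1 u ≤ η x` by the
  choice of `N`): `G + x ≤ B + AM g2`.
* medium, outer `g2`, `|m e| ≤ len m/16`: the same with `thin_bound` and `TM`: `G + x ≤ B + TM g2`.
* medium, outer `g2`, `|m e| > len m/16`: `G + x ≤ B + (K₁+1) x`.
Integrate: `Gn + κ x ∫ |m|^γ g ≤ Ls + ∫ |m|^γ g1 1_med AM g2 + ∫ |m|^γ g2 1_thin TM g2 + (K₁+1) x ∫_nonthin |m|^γ g2`. First remainder: `g1 z ≤ η x` (medium),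
`swap_all`: `≤ η K_s x ∫ |m|^γ g2 ≤ κ x ∫ |m|^γ g2`, cancelled (finite). The others as in `gain_planar`.
-/

set_option autoImplicit false

open MeasureTheory Set Filter Topology Pool.Agent.H25.Kin Pool.Agent.H82.BK Pool.Agent.H82.CM
open Pool.Agent.H48.PL Pool.Agent.H48.PI
open scoped ENNReal

namespace Pool.Agent.H82.NT

variable {d : ℕ} {s a C Ca cb : ℝ} {b : ℝ → ℝ}

lemma VPh4_eq (e : Fin d) (a : ℝ) (v w : Vec d) :
    (v e - w e) * Ph4 e a v w = min 1 (jb w / jb v) ^ 2 * ((v e - w e) * Ph e a v w) := by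
  unfold Ph4 Ph
  ring

lemma VPh4_nonneg (ha : 0 < a) (e : Fin d) (v w : Vec d) : 0 ≤ (v e - w e) * Ph4 e a v w := by
  rw [VPh4_eq]
  exact mul_nonneg (sq_nonneg _) (VPh_nonneg ha e v w)

private lemma gn_min0 (v w : Vec d) : 0 ≤ min 1 (jb w / jb v) :=
  le_min zero_le_one (div_nonneg (jb_pos w).le (jb_pos v).le)

lemma VPh4_le (ha : 0 < a) (e : Fin d) (v w : Vec d) :
    (v e - w e) * Ph4 e a v w ≤ (v e - w e) * Ph e a v w := by
  rw [VPh4_eq]
  refine mul_le_of_le_one_left (VPh_nonneg ha e v w) ?_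
  exact pow_le_one₀ (gn_min0 v w) (min_le_left _ _)

/-- lower bound of the weight -/
private lemma gn_wt (ha : 0 < a) {c : ℝ} (hc : 0 ≤ c) (hc1 : c ≤ 1) {v z : Vec d}
    (h : c * (1 + nsq v) ≤ 1 + nsq z) (e : Fin d) :
    c ^ 2 * |v e - z e| ^ (1 + a) ≤ (v e - z e) * Ph4 e a v z := by
  rw [VPh4_eq, VPh_eq ha, ← mul_assoc]
  refine mul_le_mul_of_nonneg_right ?_ (Real.rpow_nonneg (abs_nonneg _) _)
  have h1 := jb_pos v
  have h2 := jb_pos z
  have h4 : c ≤ min 1 (jb z / jb v) ^ 2 := by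
    rcases le_total 1 (jb z / jb v) with h3 | h3
    · rw [min_eq_left h3]
      simpa using hc1
    · rw [min_eq_right h3, div_pow, le_div_iff₀ (by positivity), jb_sq, jb_sq]
      exact h
  rw [sq c]
  exact mul_le_mul h4 h4 hc (sq_nonneg _)

private lemma gn_len (ha : 0 < a) {M : ℝ} (hM : 0 ≤ M) {m : Vec d} {e : Fin d}
    (h : len m ≤ M * |m e|) : len m ^ (1 + a) ≤ M ^ (1 + a) * |m e| ^ (1 + a) := by
  rw [← Real.mul_rpow hM (abs_nonneg _)]
  exact Real.rpow_le_rpow (len_nonneg m) h (by linarith)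

/-- not slow: comparable with `v` from below -/
private lemma gn_notslow {δ a₀ : ℝ} (_ha₀ : 1 ≤ a₀) {v z : Vec d} (h : ¬ SlowR δ a₀ v z) :
    min (1 / a₀) (δ ^ 2) * (1 + nsq v) ≤ 1 + nsq z := by
  have hz := sq_nonneg' z
  have hv := sq_nonneg' v
  have ha : 0 < 1 + nsq v := by linarith
  by_cases h1 : a₀ ≤ 1 + nsq v
  · have h2 : δ ^ 2 * (1 + nsq v) < nsq z := by
      by_contra h3
      exact h ⟨h1, not_lt.1 h3⟩
    have h3 := mul_le_mul_of_nonneg_right (min_le_right (1 / a₀) (δ ^ 2)) ha.le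
    linarith
  · have h2 : 1 / a₀ * (1 + nsq v) ≤ 1 := by
      rw [one_div, inv_mul_le_iff₀ (by linarith)]
      push Not at h1
      linarith
    have h3 := mul_le_mul_of_nonneg_right (min_le_left (1 / a₀) (δ ^ 2)) ha.le
    linarith

/-- small `m`: comparable with `v` from below -/
private lemma gn_near {v m : Vec d} (h : nsq m ≤ 1 / 8 * (1 + nsq v)) :
    1 / 4 * (1 + nsq v) ≤ 1 + nsq (v - m) := by
  have h5 : nsq v ≤ 2 * nsq m + 2 * nsq (v - m) := by
    have h6 := nsq_par m (v - m)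
    have e : m + (v - m) = v := by abel
    rw [e] at h6
    have h7 := sq_nonneg' (m - (v - m))
    linarith
  have hv := sq_nonneg' v
  linarith

private lemma gn_near' {v h : Vec d} (hh : nsq h ≤ 1 / 8 * (1 + nsq v)) :
    1 / 4 * (1 + nsq v) ≤ 1 + nsq (v + h) := by
  have e : v + h = v - (-h) := by abel
  rw [e]
  refine gn_near ?_
  have e1 : nsq (-h) = nsq h := by
    unfold nsq
    refine Finset.sum_congr rfl fun i _ => ?_
    rw [Pi.neg_apply, neg_sq]
  rw [e1]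
  exact hh

/-- touching: the values at the velocities which are not slow -/
private lemma gn_val {δ₁ c : ℝ} {p : ℕ} (ha : 0 < a) (hδ : 0 ≤ δ₁) (hδ1 : δ₁ ≤ 1) (hc : 0 < c)
    {g : Vec d → ℝ} (hg0 : ∀ u, 0 ≤ g u) {v z : Vec d} (ht : Touch δ₁ a p g v)
    (h : c * (1 + nsq v) ≤ 1 + nsq z) : g z ≤ 2 / c ^ p * g v := by
  have hz := sq_nonneg' z
  have hv := sq_nonneg' v
  have hgv := hg0 v
  have hA : 0 < 1 + nsq v := by linarith
  have hZ : 0 < 1 + nsq z := by linarith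
  have h1 := ht z
  have h2 : (1 + δ₁ * mm a v z) ≤ 2 := by
    have h3 := mm_le_one ha.le v z
    have h4 := mm_nonneg a v z
    nlinarith
  have h3 : (c * (1 + nsq v)) ^ p ≤ (1 + nsq z) ^ p := pow_le_pow_left₀ (by positivity) h p
  rw [mul_pow] at h3
  have hcp : 0 < c ^ p := pow_pos hc p
  have hAp : 0 < (1 + nsq v) ^ p := pow_pos hA p
  have h4 : g z * (c ^ p * (1 + nsq v) ^ p) ≤ g v * (1 + nsq v) ^ p * 2 := by
    calc g z * (c ^ p * (1 + nsq v) ^ p) ≤ g z * (1 + nsq z) ^ p :=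
          mul_le_mul_of_nonneg_left h3 (hg0 z)
      _ ≤ g v * (1 + nsq v) ^ p * (1 + δ₁ * mm a v z) := h1
      _ ≤ _ := mul_le_mul_of_nonneg_left h2 (by positivity)
  rw [div_mul_eq_mul_div, le_div_iff₀ hcp]
  have h5 : (g z * c ^ p) * (1 + nsq v) ^ p ≤ (2 * g v) * (1 + nsq v) ^ p := by linarith
  exact le_of_mul_le_mul_right h5 hAp

/-- the bounded part is small compared with `g v` -/
private lemma gn_small {p : ℕ} {C₀ ρ c η x : ℝ} (hc : 0 < c) (hη : 0 < η) (hx : 0 ≤ x) {g1 : Vec d → ℝ}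
    (hC : ∀ u, g1 u ≤ C₀) (hρ : ∀ u, g1 u ≠ 0 → 1 + nsq u ≤ ρ) {v : Vec d}
    (hN : C₀ * (ρ / c) ^ p / η ≤ x * (1 + nsq v) ^ p) {u : Vec d} (h : c * (1 + nsq v) ≤ 1 + nsq u) :
    g1 u ≤ η * x := by
  by_cases h0 : g1 u = 0
  · rw [h0]; positivity
  have h1 := hρ u h0
  have hu := sq_nonneg' u
  have hv := sq_nonneg' v
  have hρ0 : 0 < ρ := by linarith
  have h2 : 1 + nsq v ≤ ρ / c := by
    rw [le_div_iff₀ hc]; linarith
  have hP : 0 < (ρ / c) ^ p := by positivity
  have h3 : (1 + nsq v) ^ p ≤ (ρ / c) ^ p := pow_le_pow_left₀ (by linarith) h2 p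
  have h4 : C₀ * (ρ / c) ^ p / η ≤ x * (ρ / c) ^ p := hN.trans (mul_le_mul_of_nonneg_left h3 hx)
  rw [div_le_iff₀ hη] at h4
  have h5 : C₀ * (ρ / c) ^ p ≤ (η * x) * (ρ / c) ^ p := by linarith
  exact (hC u).trans (le_of_mul_le_mul_right h5 hP)

private lemma gn_BB {b : ℝ → ℝ} (hb : Measurable b) (ε : ℝ) :
    Measurable fun m : Vec d => BB b ε (dir m) := by
  have h1 : Measurable fun e : Vec d => BB b ε e := by
    unfold BB
    have h2 : Measurable fun q : Vec d × Vec d => ENNReal.ofReal (bt b ε (dot q.1 q.2)) := by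
      have h3 : Continuous fun q : Vec d × Vec d => dot q.1 q.2 := by unfold dot; fun_prop
      exact ((measurable_bt hb ε).comp h3.measurable).ennreal_ofReal
    exact h2.lintegral_prod_right'
  have h4 : Measurable fun m : Vec d => dir m := by
    unfold dir
    exact (continuous_len.measurable.inv).smul measurable_id
  exact h1.comp h4

lemma Ph4_cont (ha : 0 < a) (e : Fin d) (v : Vec d) : Continuous fun z : Vec d => Ph4 e a v z := by
  have h1 := (Ph_PGW (d := d) ha e).cont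
  have h2 : Continuous fun z : Vec d => ((v, z) : Vec d × Vec d) :=
    continuous_const.prodMk continuous_id
  have h3 := h1.comp h2
  have h4 : Continuous fun z : Vec d => min 1 (jb z / jb v) ^ 2 :=
    (continuous_const.min (jb_cont.div_const _)).pow 2
  have h5 : (fun z : Vec d => Ph4 e a v z) = fun z => min 1 (jb z / jb v) ^ 2 * Ph e a v z := by
    funext z
    unfold Ph4 Ph
    ring
  rw [h5]
  exact h4.mul h3

lemma VPh4_cont (ha : 0 < a) (e : Fin d) (v : Vec d) :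
    Continuous fun z : Vec d => (v e - z e) * Ph4 e a v z := by
  have h1 : Continuous fun z : Vec d => v e - z e := continuous_const.sub (continuous_apply e)
  exact h1.mul (Ph4_cont ha e v)

/-- cancellation of the part of `g1` -/
private lemma gn_cancel {X Y B A A1 A2 : ℝ≥0∞} {K x : ℝ} (hK : 0 ≤ K) (hx : 0 ≤ x)
    (hE : Y ≤ ENNReal.ofReal (K * x)) (hA : A ≤ A1 + A2) (hA1 : A1 ≤ ENNReal.ofReal x)
    (h : X + ENNReal.ofReal ((K + 2) * x) ≤ B + A) : X + Y + ENNReal.ofReal x ≤ B + A2 := by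
  refine (ENNReal.add_le_add_iff_right (a := ENNReal.ofReal x) ENNReal.ofReal_ne_top).1 ?_
  have e1 : ENNReal.ofReal ((K + 2) * x) = ENNReal.ofReal (K * x) + ENNReal.ofReal x + ENNReal.ofReal x := by
    rw [← ENNReal.ofReal_add (by positivity) hx, ← ENNReal.ofReal_add (by positivity) hx]
    congr 1; ring
  calc X + Y + ENNReal.ofReal x + ENNReal.ofReal x
      ≤ X + ENNReal.ofReal (K * x) + ENNReal.ofReal x + ENNReal.ofReal x := by gcongr
    _ = X + ENNReal.ofReal ((K + 2) * x) := by rw [e1]; ring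
    _ ≤ B + A := h
    _ ≤ B + (A1 + A2) := by gcongr
    _ ≤ B + (ENNReal.ofReal x + A2) := by gcongr
    _ = B + A2 + ENNReal.ofReal x := by ring

lemma AM_meas (hb : Measurable b) (τ γ ε : ℝ) {g : Vec d → ℝ} (hg : Measurable g) (v : Vec d) :
    Measurable fun m : Vec d => AM τ γ b ε g v m := by
  classical
  have hco : Measurable fun q : Vec d × Vec d => co q.1 q.2 := measurable_co
  have hhh : Measurable fun q : Vec d × Vec d => hh q.2 q.1 := measurable_hh
  have hbt := measurable_bt (b := b) hb ε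
  have hK : Measurable (Kn d γ (bt b ε)) := by
    unfold Kn
    have h1 : Measurable fun c : ℝ => c ^ (-2 - γ) := measurable_id.pow_const _
    have h2 : Measurable fun c : ℝ => bt b ε (2 * c ^ 2 - 1) := hbt.comp (by fun_prop)
    exact (measurable_const.mul h1).mul h2
  have hS : MeasurableSet {q : Vec d × Vec d | 0 < dot q.1 q.2 ∧ hh q.2 q.1 ∈ AnS τ q.1} := by
    refine MeasurableSet.inter ?_ ?_
    · have h3 : Continuous fun q : Vec d × Vec d => dot q.1 q.2 := by unfold dot; fun_prop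
      exact measurableSet_lt measurable_const h3.measurable
    · have h2 : Measurable fun q : Vec d × Vec d => (q.1, hh q.2 q.1) := measurable_fst.prodMk hhh
      exact h2 (measurableSet_AnS τ)
  have hF : Measurable fun q : Vec d × Vec d =>
      ({q : Vec d × Vec d | 0 < dot q.1 q.2 ∧ hh q.2 q.1 ∈ AnS τ q.1}).indicator
        (fun q => ENNReal.ofReal (Kn d γ (bt b ε) (co q.1 q.2) * g (v + hh q.2 q.1))) q :=
    ((hK.comp hco).mul (hg.comp (measurable_const.add hhh))).ennreal_ofReal.indicator hS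
  have h3 := hF.lintegral_prod_right' (ν := surf d)
  have e1 : (fun m : Vec d => AM τ γ b ε g v m) = fun m => ∫⁻ σ,
      ({q : Vec d × Vec d | 0 < dot q.1 q.2 ∧ hh q.2 q.1 ∈ AnS τ q.1}).indicator
        (fun q => ENNReal.ofReal (Kn d γ (bt b ε) (co q.1 q.2) * g (v + hh q.2 q.1))) (m, σ) ∂(surf d) := by
    funext m
    unfold AM
    rw [← lintegral_indicator (measurableSet_half m)]
    refine lintegral_congr fun σ => ?_
    by_cases h1 : 0 < dot m σ
    · rw [indicator_of_mem (show σ ∈ {σ : Vec d | 0 < dot m σ} from h1)]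
      by_cases h2 : hh σ m ∈ AnS τ m
      · rw [if_pos h2, indicator_of_mem (show (m, σ) ∈
          {q : Vec d × Vec d | 0 < dot q.1 q.2 ∧ hh q.2 q.1 ∈ AnS τ q.1} from ⟨h1, h2⟩)]
      · rw [if_neg h2, indicator_of_notMem (show (m, σ) ∉
          {q : Vec d × Vec d | 0 < dot q.1 q.2 ∧ hh q.2 q.1 ∈ AnS τ q.1} from fun h => h2 h.2)]
    · rw [indicator_of_notMem (show σ ∉ {σ : Vec d | 0 < dot m σ} from h1),
        indicator_of_notMem (show (m, σ) ∉
          {q : Vec d × Vec d | 0 < dot q.1 q.2 ∧ hh q.2 q.1 ∈ AnS τ q.1} from fun h => h1 h.1)]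
  rw [e1]
  exact h3

private lemma gn_eta {η κ A B D : ℝ} (hη : 0 ≤ η) (hB : 0 ≤ B) (hD : 0 ≤ D)
    (h : η * (1 + A + B + D) = κ) : A * η ≤ κ := by
  have h1 := mul_nonneg hη hB
  have h2 := mul_nonneg hη hD
  linarith

private lemma gn_eta1 {η κ K x : ℝ} (hx : 0 ≤ x) (h : K * η ≤ κ) : K * (η * x) ≤ κ * x := by
  rw [← mul_assoc]
  exact mul_le_mul_of_nonneg_right h hx

private lemma gn_eta2 {η K x : ℝ} (hx : 0 ≤ x) (h : K * η ≤ 1) : K * (η * x) ≤ x :=
  (gn_eta1 hx h).trans_eq (one_mul x)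

private lemma gn_medB {A B D L : ℝ} (h5 : D ≤ 2 * A + 2 * B) (h6 : B ≤ L * (1 + A)) :
    D ≤ (2 + 2 * L) * (1 + A) := by
  linarith

private lemma gn_etaq {κ T : ℝ} (hT : 0 < T) : κ / T * T = κ := div_mul_cancel₀ κ hT.ne'

theorem gain_nl (HL : HypL d (1 + a) s b C Ca cb) (h1 : 2 * s < a) (ha1 : a ≤ 1) {p : ℕ}
    (hp : (d : ℝ) + (1 + a) + 4 ≤ 2 * p) (e : Fin d) :
    ∃ K κ δ₁ ε₀ : ℝ, 0 ≤ K ∧ 0 < κ ∧ 0 < δ₁ ∧ δ₁ ≤ 1 ∧ 0 < ε₀ ∧
      ∀ C₀ ρ : ℝ, 0 ≤ C₀ → 0 ≤ ρ → ∃ N : ℝ, 0 ≤ N ∧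
      ∀ g g1 g2 : Vec d → ℝ, Measurable g → Measurable g1 → Measurable g2 → (∀ u, 0 ≤ g u) →
      (∀ u, 0 ≤ g1 u) → (∀ u, 0 ≤ g2 u) → (∀ u, g u = g1 u + g2 u) → (∀ u, g1 u ≤ C₀) →
      (∀ u, g1 u ≠ 0 → 1 + nsq u ≤ ρ) →
      ∀ v : Vec d, (∫⁻ m, ENNReal.ofReal (len m ^ (1 + a) * g (v - m))) ≠ ⊤ →
      Touch δ₁ a p g v → N ≤ g v * (1 + nsq v) ^ p → ∀ ε : ℝ, 0 < ε → ε ≤ ε₀ →
      Gn (1 + a) b ε g v +
          ENNReal.ofReal (κ * g v) * ∫⁻ m, ENNReal.ofReal (len m ^ (1 + a) * g1 (v - m)) ≤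
        Ls (1 + a) b ε g v +
        ∫⁻ z, ENNReal.ofReal (K * g v * (g2 z * ((v e - z e) * Ph4 e a v z))) := by
  classical
  have H := HL.H
  have hs := H.hs
  have ha : 0 < a := by linarith
  obtain ⟨θ, hθ, hθ4, hfast⟩ := fast_pert HL h1 ha1 p
  obtain ⟨K₂, hK₂, hexc⟩ := exc_pert H ha.le hp hθ
  obtain ⟨L, hL, ε₁, hε₁, hfast'⟩ := hfast (K₂ + 1) (by linarith)
  obtain ⟨δ, hδ, hδ1, a₀, ha₀, κ₀, hκ₀, hslow⟩ := slow_pert HL h1 ha1 hp
  obtain ⟨δ₁, hδ₁, hδ₁1, hslow'⟩ := hslow θ hθ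
  obtain ⟨KM, hKM, hmed⟩ := med_pert H h1 ha1 p
  obtain ⟨τ, ε₂, hτ, hτ4, hτL, hε₂, hthin⟩ :=
    thin_bound HL h1 ha1 p e hL (K₃ := K₂ + 2) (by linarith)
  obtain ⟨τ₁, ε₃, hτ₁, hτ₁4, hτ₁L, hε₃, hall⟩ :=
    all_bound HL h1 ha1 p hL (K₃ := K₂ + 2) (by linarith)
  obtain ⟨Ks, hKs, hswap⟩ := swap_thin H e hτ (by linarith : τ ≤ 1) (Λ := 2 + 2 * L) (by linarith)
  obtain ⟨Kt, hKt, hswapA⟩ := swap_all H hτ₁ (by linarith : τ₁ ≤ 1) (Λ := 2 + 2 * L) (by linarith)
  obtain ⟨Ka1, hKa1, ham⟩ := am_le H hτ (by linarith : τ ≤ 1)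
  obtain ⟨Ka2, hKa2, ham₁⟩ := am_le H hτ₁ (by linarith : τ₁ ≤ 1)
  set c₁ : ℝ := min (1 / a₀) (δ ^ 2) with hc₁
  have hc₁0 : 0 < c₁ := lt_min (by positivity) (by positivity)
  have hc₁1 : c₁ ≤ 1 := (min_le_right _ _).trans (pow_le_one₀ hδ.le hδ1)
  set c₂ : ℝ := min c₁ (1 / 4) with hc₂
  have hc₂0 : 0 < c₂ := lt_min hc₁0 (by norm_num)
  have hc₂1 : c₂ ≤ c₁ := min_le_left _ _
  have hc₂4 : c₂ ≤ 1 / 4 := min_le_right _ _
  set κ : ℝ := min κ₀ 1 with hκd
  have hκ : 0 < κ := lt_min hκ₀ one_pos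
  have hκ1 : κ ≤ 1 := min_le_right _ _
  have hκ0 : κ ≤ κ₀ := min_le_left _ _
  set η : ℝ := κ / (1 + Kt + Ka1 + Ka2) with hηd
  have hη : 0 < η := by positivity
  have hη1 : η * (1 + Kt + Ka1 + Ka2) = κ := by rw [hηd]; field_simp
  have hηt : Kt * η ≤ κ := gn_eta hη.le hKa1 hKa2 hη1
  have hη3 : Ka1 * η ≤ 1 := (gn_eta hη.le hKt hKa2
    (show η * (1 + Ka1 + Kt + Ka2) = κ by rw [← hη1]; ring)).trans hκ1
  have hη4 : Ka2 * η ≤ 1 := (gn_eta hη.le hKt hKa1
    (show η * (1 + Ka2 + Kt + Ka1) = κ by rw [← hη1]; ring)).trans hκ1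
  set K₁ : ℝ := KM * (3 + 2 * L) ^ s + K₂ + 1 with hK₁
  have hK₁0 : 0 ≤ K₁ := by positivity
  set Cz : ℝ := 2 / c₁ ^ p with hCz
  have hCz0 : 0 ≤ Cz := by positivity
  set Ka : ℝ := K₁ * (16 ^ (1 + a) / c₁ ^ 2) with hKa
  set Kb : ℝ := Ks * Cz * (16 * 2 ^ (1 + a)) with hKb
  have hKa0 : 0 ≤ Ka := by positivity
  have hKb0 : 0 ≤ Kb := by positivity
  refine ⟨Ka + Kb, κ, δ₁, min (min (min ε₁ ε₂) ε₃) (1 / 64), by positivity, hκ, hδ₁, hδ₁1,
    lt_min (lt_min (lt_min hε₁ hε₂) hε₃) (by norm_num), fun C₀ ρ hC₀ hρ0 =>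
    ⟨C₀ * (ρ / c₂) ^ p / η, by positivity, ?_⟩⟩
  intro g g1 g2 hg hg1 hg2 hg0 hg10 hg20 hgg hg1C hg1ρ v hfin ht hN ε hε hεle
  have hεa : ε ≤ ε₁ :=
    hεle.trans ((min_le_left _ _).trans ((min_le_left _ _).trans (min_le_left _ _)))
  have hεb : ε ≤ ε₂ :=
    hεle.trans ((min_le_left _ _).trans ((min_le_left _ _).trans (min_le_right _ _)))
  have hεd : ε ≤ ε₃ := hεle.trans ((min_le_left _ _).trans (min_le_right _ _))
  have hεc : ε ≤ 1 / 64 := hεle.trans (min_le_right _ _)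
  have hgv := hg0 v
  have hv0 : 0 ≤ nsq v := sq_nonneg' v
  have hA : 0 < 1 + nsq v := by linarith
  have hsub : ∀ m : Vec d, v - (v - m) = m := fun m => sub_sub_cancel v m
  -- the small part
  have hsm : ∀ u : Vec d, c₂ * (1 + nsq v) ≤ 1 + nsq u → g1 u ≤ η * g v := fun u hu =>
    gn_small hc₂0 hη hgv hg1C hg1ρ hN hu
  -- the weight
  set w : Vec d → ℝ := fun z => (v e - z e) * Ph4 e a v z with hw
  have hw0 : ∀ z, 0 ≤ w z := fun z => VPh4_nonneg ha e v z
  have hwm : Measurable w := (VPh4_cont ha e v).measurable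
  -- the medium velocities
  set Med : Set (Vec d) := {m | MedR δ a₀ L v (v - m)} with hMed
  have hMedm : MeasurableSet Med :=
    (measurableSet_MedR δ a₀ L v).preimage (measurable_const.sub measurable_id)
  have hMedB : ∀ m ∈ Med, nsq m ≤ (2 + 2 * L) * (1 + nsq v) := by
    intro m hm
    have h5 : nsq m ≤ 2 * nsq v + 2 * nsq (v - m) := by
      have h6 := nsq_par v (v - m)
      rw [hsub m] at h6
      have h7 := sq_nonneg' (v + (v - m))
      linarith
    have h6 : nsq (v - m) ≤ L * (1 + nsq v) := hm.1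
    exact gn_medB h5 h6
  have hMedc : ∀ m ∈ Med, c₁ * (1 + nsq v) ≤ 1 + nsq (v - m) := fun m hm => gn_notslow ha₀ hm.2
  set W1 : Vec d → ℝ≥0∞ := fun m => ENNReal.ofReal (len m ^ (1 + a) * g1 (v - m)) with hW1
  set W2 : Vec d → ℝ≥0∞ := fun m => ENNReal.ofReal (len m ^ (1 + a) * g2 (v - m)) with hW2
  have hlm : Measurable fun m : Vec d => len m ^ (1 + a) :=
    continuous_len.measurable.pow_const _
  have hl0 : ∀ m : Vec d, 0 ≤ len m ^ (1 + a) := fun m => Real.rpow_nonneg (len_nonneg m) _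
  have hg1m : Measurable fun m : Vec d => g1 (v - m) := hg1.comp (measurable_const.sub measurable_id)
  have hg2m : Measurable fun m : Vec d => g2 (v - m) := hg2.comp (measurable_const.sub measurable_id)
  have hW1m : Measurable W1 := (hlm.mul hg1m).ennreal_ofReal
  have hW2m : Measurable W2 := (hlm.mul hg2m).ennreal_ofReal
  have hWt : ∀ m, ENNReal.ofReal (len m ^ (1 + a) * g (v - m)) = W1 m + W2 m := by
    intro m
    rw [hgg, mul_add, ENNReal.ofReal_add (mul_nonneg (hl0 m) (hg10 _)) (mul_nonneg (hl0 m) (hg20 _))]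
  set Th' : Set (Vec d) := {m | |m e| ≤ len m / 16} with hTh'
  have hThm : MeasurableSet Th' := by
    have h2 : Continuous fun m : Vec d => |m e| := (continuous_apply e).abs
    have h3 : Continuous fun m : Vec d => len m / 16 := continuous_len.div_const _
    exact (isClosed_le h2 h3).measurableSet
  set κx : ℝ≥0∞ := ENNReal.ofReal (κ * g v) with hκx
  have hκx1 : κx ≤ ENNReal.ofReal (g v) := ENNReal.ofReal_le_ofReal (mul_le_of_le_one_left hgv hκ1)
  have hκx0 : κx ≤ ENNReal.ofReal (κ₀ * g v) := ENNReal.ofReal_le_ofReal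
    (mul_le_mul_of_nonneg_right hκ0 hgv)
  set G : Vec d → ℝ≥0∞ := fun m =>
    GMg (1 + a) b ε g (RegS θ L v) v m + GEg (1 + a) b ε g (RegS θ L v) v m with hG
  set Bm : Vec d → ℝ≥0∞ := fun m => ENNReal.ofReal (g v) * BB b ε (dir m) with hBmd
  -- slow and fast
  have hSF : ∀ m : Vec d, m ≠ 0 → m ∉ Med → G m + κx ≤ Bm m := by
    intro m hm hmed'
    have hE := hexc L hL δ₁ hδ₁.le hδ₁1 g hg0 v ht m ε hε
    by_cases hsl : SlowR δ a₀ v (v - m)
    · have h2 := hslow' L hL g hg hg0 v ht m hm hsl ε hε hεc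
      exact (add_le_add_right hκx0 _).trans h2
    by_cases hfa : L * (1 + nsq v) < nsq (v - m)
    · have h2 := hfast' δ₁ hδ₁.le hδ₁1 g hg hg0 v ht m hm hfa ε hε hεa
      have e2 : ENNReal.ofReal ((K₂ + 1) * g v) = ENNReal.ofReal (K₂ * g v) + ENNReal.ofReal (g v) := by
        rw [← ENNReal.ofReal_add (by positivity) hgv]
        congr 1; ring
      rw [e2, ← add_assoc] at h2
      exact (add_le_add (add_le_add_right hE _) hκx1).trans h2
    rw [not_lt] at hfa
    exact absurd ⟨hfa, hsl⟩ hmed'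
  have hnear : ∀ (t : ℝ), 0 < t → t ^ 2 * (2 + 2 * L) ≤ 1 / 8 → ∀ m ∈ Med, ∀ h ∈ AnS t m,
      g1 (v + h) ≤ η * g v := by
    intro t ht0 htL m hm h hh'
    refine hsm _ ?_
    have h3 : nsq h ≤ 1 / 8 * (1 + nsq v) := by
      calc nsq h ≤ t ^ 2 * nsq m := hh'.2
        _ ≤ t ^ 2 * ((2 + 2 * L) * (1 + nsq v)) :=
            mul_le_mul_of_nonneg_left (hMedB m hm) (sq_nonneg _)
        _ = (t ^ 2 * (2 + 2 * L)) * (1 + nsq v) := by ring
        _ ≤ _ := mul_le_mul_of_nonneg_right htL hA.le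
    have h4 := gn_near' h3
    have h5 : c₂ * (1 + nsq v) ≤ 1 / 4 * (1 + nsq v) := mul_le_mul_of_nonneg_right hc₂4 hA.le
    linarith
  have hηx : 0 ≤ η * g v := by positivity
  -- outer variable with `g1`
  have hP1 : ∀ m : Vec d, m ≠ 0 →
      G m + κx ≤ Bm m + Med.indicator (fun m => AM τ₁ (1 + a) b ε g2 v m) m := by
    intro m hm
    by_cases hmed' : m ∈ Med
    · rw [indicator_of_mem hmed']
      have hE := hexc L hL δ₁ hδ₁.le hδ₁1 g hg0 v ht m ε hε
      have h2 := hall θ δ₁ hδ₁.le hδ₁1 g hg hg0 v ht m hm hmed'.1 ε hε hεd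
      have h3 : AM τ₁ (1 + a) b ε g1 v m ≤ ENNReal.ofReal (g v) := by
        refine (ham₁ g1 (η * g v) hηx v m (hnear τ₁ hτ₁ hτ₁L m hmed') ε hε).trans ?_
        exact ENNReal.ofReal_le_ofReal (gn_eta2 hgv hη4)
      exact (add_le_add_right hκx1 _).trans
        (gn_cancel hK₂ hgv hE (AM_add_le H.bm τ₁ (1 + a) ε hg1 hgg v m) h3 h2)
    · rw [indicator_of_notMem hmed', add_zero]
      exact hSF m hm hmed'
  -- outer variable with `g2`
  have hP2 : ∀ m : Vec d, m ≠ 0 → G m + κx ≤ Bm m +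
      ((Med \ Th').indicator (fun _ => ENNReal.ofReal (K₁ * g v)) m +
        (Med ∩ Th').indicator (fun m => TM e τ (1 + a) b ε g2 v m) m) := by
    intro m hm
    by_cases hmed' : m ∈ Med
    · have hE := hexc L hL δ₁ hδ₁.le hδ₁1 g hg0 v ht m ε hε
      by_cases hth : m ∈ Th'
      · have h2 := hthin θ δ₁ hδ₁.le hδ₁1 g hg hg0 v ht m hm hmed'.1 hth ε hε hεb
        have h3 : TM e τ (1 + a) b ε g1 v m ≤ ENNReal.ofReal (g v) := by
          refine (TM_le_AM e τ (1 + a) b ε g1 v m).trans ?_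
          refine (ham g1 (η * g v) hηx v m (hnear τ hτ hτL m hmed') ε hε).trans ?_
          exact ENNReal.ofReal_le_ofReal (gn_eta2 hgv hη3)
        rw [indicator_of_mem (show m ∈ Med ∩ Th' from ⟨hmed', hth⟩)]
        refine ((add_le_add_right hκx1 _).trans
          (gn_cancel hK₂ hgv hE (TM_add_le H.bm e τ (1 + a) ε hg1 hgg v m) h3 h2)).trans ?_
        refine add_le_add_right ?_ _
        exact le_add_self
      · have h2 := hmed θ L δ₁ hδ₁.le hδ₁1 g hg hg0 v ht m hm ε hε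
        rw [indicator_of_mem (show m ∈ Med \ Th' from ⟨hmed', hth⟩)]
        have hm0 : 0 ≤ nsq m := sq_nonneg' m
        have hQ0 : 0 ≤ nsq m / (1 + nsq v) := by positivity
        have hQ : (1 + nsq m / (1 + nsq v)) ^ s ≤ (3 + 2 * L) ^ s := by
          refine Real.rpow_le_rpow (by positivity) ?_ hs.le
          have h8 : nsq m / (1 + nsq v) ≤ 2 + 2 * L := by
            rw [div_le_iff₀ hA]
            exact hMedB m hmed'
          linarith
        have hP0 : 0 ≤ (1 + nsq m / (1 + nsq v)) ^ s := Real.rpow_nonneg (by linarith) _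
        have h9 : G m + κx ≤ Bm m + ENNReal.ofReal (K₁ * g v) := by
          calc G m + κx ≤ (Bm m + ENNReal.ofReal (KM * g v * (1 + nsq m / (1 + nsq v)) ^ s) +
                ENNReal.ofReal (K₂ * g v)) + ENNReal.ofReal (g v) :=
                add_le_add (add_le_add h2 hE) hκx1
            _ = Bm m + (ENNReal.ofReal (KM * g v * (1 + nsq m / (1 + nsq v)) ^ s) +
                ENNReal.ofReal (K₂ * g v) + ENNReal.ofReal (g v)) := by ring
            _ ≤ _ := by
                rw [← ENNReal.ofReal_add (by positivity) (by positivity),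
                  ← ENNReal.ofReal_add (by positivity) (by positivity)]
                refine add_le_add_right (ENNReal.ofReal_le_ofReal ?_) _
                have := mul_le_mul_of_nonneg_left hQ (mul_nonneg hKM hgv)
                rw [hK₁]
                linarith
        refine h9.trans ?_
        refine add_le_add_right ?_ _
        exact le_self_add
    · exact (hSF m hm hmed').trans le_self_add
  -- remainder with `g1` outside
  set Bset : Set (Vec d) := {m : Vec d | nsq m ≤ (2 + 2 * L) * (1 + nsq v)} with hBset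
  have hBm : MeasurableSet Bset := (isClosed_le continuous_sq continuous_const).measurableSet
  have hR3 : ∫⁻ m, W1 m * Med.indicator (fun m => AM τ₁ (1 + a) b ε g2 v m) m ≤
      κx * ∫⁻ m, W2 m := by
    have hpt : ∀ m : Vec d, W1 m * Med.indicator (fun m => AM τ₁ (1 + a) b ε g2 v m) m ≤
        ENNReal.ofReal (η * g v) * (Bset.indicator
          (fun m => ENNReal.ofReal (len m ^ (1 + a)) * AM τ₁ (1 + a) b ε g2 v m) m) := by
      intro m
      by_cases hm : m ∈ Med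
      · have h3 : g1 (v - m) ≤ η * g v := by
          refine hsm _ (le_trans ?_ (hMedc m hm))
          exact mul_le_mul_of_nonneg_right hc₂1 hA.le
        rw [indicator_of_mem hm, indicator_of_mem (show m ∈ Bset from hMedB m hm), ← mul_assoc, hW1]
        refine mul_le_mul_left ?_ _
        rw [← ENNReal.ofReal_mul hηx]
        refine ENNReal.ofReal_le_ofReal ?_
        calc len m ^ (1 + a) * g1 (v - m) ≤ len m ^ (1 + a) * (η * g v) :=
              mul_le_mul_of_nonneg_left h3 (hl0 m)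
          _ = _ := by ring
      · rw [indicator_of_notMem hm, mul_zero]
        exact zero_le
    refine (lintegral_mono hpt).trans ?_
    rw [lintegral_const_mul' _ _ ENNReal.ofReal_ne_top, lintegral_indicator hBm]
    refine (mul_le_mul_right (hswapA g2 hg2 hg20 v ε hε) _).trans ?_
    rw [← mul_assoc, ← ENNReal.ofReal_mul hηx]
    refine mul_le_mul' ?_ ?_
    · refine ENNReal.ofReal_le_ofReal ?_
      rw [mul_comm]
      exact gn_eta1 hgv hηt
    · exact setLIntegral_le_lintegral _ _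
  -- remainder, transversal
  have hRa : ∀ m : Vec d, W2 m * (Med \ Th').indicator (fun _ => ENNReal.ofReal (K₁ * g v)) m ≤
      ENNReal.ofReal (Ka * g v * (g2 (v - m) * w (v - m))) := by
    intro m
    by_cases hm : m ∈ Med \ Th'
    · rw [indicator_of_mem hm, hW2]
      have hgz := hg20 (v - m)
      simp only
      rw [← ENNReal.ofReal_mul (mul_nonneg (hl0 m) hgz)]
      refine ENNReal.ofReal_le_ofReal ?_
      have h2 : c₁ * (1 + nsq v) ≤ 1 + nsq (v - m) := hMedc m hm.1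
      have h3 := gn_wt ha hc₁0.le hc₁1 h2 e
      have h4 : v e - (v - m) e = m e := by simp
      have h5 : len m ≤ 16 * |m e| := by
        have h6 : ¬ (|m e| ≤ len m / 16) := hm.2
        push Not at h6
        linarith
      have h6 := gn_len ha (by norm_num) h5
      rw [h4] at h3
      have h7 : len m ^ (1 + a) ≤ 16 ^ (1 + a) / c₁ ^ 2 * w (v - m) := by
        have h8 : w (v - m) = (v e - (v - m) e) * Ph4 e a v (v - m) := rfl
        rw [h4] at h8
        rw [h8]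
        calc len m ^ (1 + a) ≤ 16 ^ (1 + a) * |m e| ^ (1 + a) := h6
          _ = 16 ^ (1 + a) / c₁ ^ 2 * (c₁ ^ 2 * |m e| ^ (1 + a)) := by field_simp
          _ ≤ _ := mul_le_mul_of_nonneg_left h3 (by positivity)
      calc len m ^ (1 + a) * g2 (v - m) * (K₁ * g v)
          ≤ (16 ^ (1 + a) / c₁ ^ 2 * w (v - m)) * g2 (v - m) * (K₁ * g v) := by gcongr
        _ = _ := by rw [hKa]; ring
    · rw [indicator_of_notMem hm, mul_zero]
      exact zero_le
  -- remainder, thin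
  have hRb : ∀ m : Vec d, W2 m * (Med ∩ Th').indicator (fun m => TM e τ (1 + a) b ε g2 v m) m ≤
      ENNReal.ofReal (Cz * g v) * (Bset.indicator
        (fun m => ENNReal.ofReal (len m ^ (1 + a)) * TM e τ (1 + a) b ε g2 v m) m) := by
    intro m
    by_cases hm : m ∈ Med ∩ Th'
    · have h2 : c₁ * (1 + nsq v) ≤ 1 + nsq (v - m) := hMedc m hm.1
      have h3 := gn_val ha hδ₁.le hδ₁1 hc₁0 hg0 ht h2
      have h5 : g2 (v - m) ≤ Cz * g v := by
        have := hgg (v - m)
        have := hg10 (v - m)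
        linarith
      rw [indicator_of_mem hm, indicator_of_mem (show m ∈ Bset from hMedB m hm.1), ← mul_assoc, hW2]
      refine mul_le_mul_left ?_ _
      rw [← ENNReal.ofReal_mul (by positivity)]
      refine ENNReal.ofReal_le_ofReal ?_
      calc len m ^ (1 + a) * g2 (v - m) ≤ len m ^ (1 + a) * (Cz * g v) :=
            mul_le_mul_of_nonneg_left h5 (hl0 m)
        _ = _ := by ring
    · rw [indicator_of_notMem hm, mul_zero]
      exact zero_le
  have hSm : MeasurableSet {m : Vec d | nsq m ≤ τ ^ 2 * (2 + 2 * L) * (1 + nsq v) ∧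
      len m ≤ 2 * |m e|} := by
    refine (isClosed_le continuous_sq continuous_const).measurableSet.inter ?_
    have h2 : Continuous fun m : Vec d => 2 * |m e| := ((continuous_apply e).abs).const_mul 2 |>.congr
      (fun _ => rfl)
    exact (isClosed_le continuous_len h2).measurableSet
  have hswap' : ∫⁻ m, W2 m * (Med ∩ Th').indicator (fun m => TM e τ (1 + a) b ε g2 v m) m ≤
      ∫⁻ m, ENNReal.ofReal (Kb * g v * (g2 (v - m) * w (v - m))) := by
    refine (lintegral_mono hRb).trans ?_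
    rw [lintegral_const_mul' _ _ ENNReal.ofReal_ne_top, lintegral_indicator hBm]
    refine (mul_le_mul_right (hswap g2 hg2 hg20 v ε hε) _).trans ?_
    rw [← lintegral_indicator hSm, ← lintegral_const_mul' _ _ ENNReal.ofReal_ne_top,
      ← lintegral_const_mul' _ _ ENNReal.ofReal_ne_top]
    refine lintegral_mono fun m => ?_
    by_cases hm : m ∈ {m : Vec d | nsq m ≤ τ ^ 2 * (2 + 2 * L) * (1 + nsq v) ∧ len m ≤ 2 * |m e|}
    · rw [indicator_of_mem hm, ← ENNReal.ofReal_mul hKs, ← ENNReal.ofReal_mul (by positivity)]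
      refine ENNReal.ofReal_le_ofReal ?_
      have hgz := hg20 (v - m)
      have h2 : 1 / 4 * (1 + nsq v) ≤ 1 + nsq (v - m) := by
        refine gn_near (hm.1.trans ?_)
        exact mul_le_mul_of_nonneg_right hτL hA.le
      have h3 := gn_wt ha (by norm_num) (by norm_num : (1 / 4 : ℝ) ≤ 1) h2 e
      have h4 : v e - (v - m) e = m e := by simp
      have h6 := gn_len ha (by norm_num) hm.2
      rw [h4] at h3
      have h7 : len m ^ (1 + a) ≤ 16 * 2 ^ (1 + a) * w (v - m) := by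
        have h8 : w (v - m) = (v e - (v - m) e) * Ph4 e a v (v - m) := rfl
        rw [h4] at h8
        rw [h8]
        calc len m ^ (1 + a) ≤ 2 ^ (1 + a) * |m e| ^ (1 + a) := h6
          _ = 16 * 2 ^ (1 + a) * ((1 / 4) ^ 2 * |m e| ^ (1 + a)) := by ring
          _ ≤ _ := mul_le_mul_of_nonneg_left h3 (by positivity)
      calc Cz * g v * (Ks * (len m ^ (1 + a) * g2 (v - m)))
          ≤ Cz * g v * (Ks * ((16 * 2 ^ (1 + a) * w (v - m)) * g2 (v - m))) := by gcongr
        _ = _ := by rw [hKb]; ring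
    · rw [indicator_of_notMem hm, mul_zero, mul_zero]
      exact zero_le
  -- assembly
  have hW12m : Measurable fun m => W1 m + W2 m := hW1m.add hW2m
  have hAm : Measurable fun m : Vec d => (W1 m + W2 m) * Bm m :=
    hW12m.mul ((gn_BB H.bm ε).const_mul _)
  have hBm' : Measurable fun m : Vec d =>
      W2 m * (Med \ Th').indicator (fun _ => ENNReal.ofReal (K₁ * g v)) m :=
    hW2m.mul (measurable_const.indicator (hMedm.diff hThm))
  have hCm' : Measurable fun m : Vec d =>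
      W1 m * Med.indicator (fun m => AM τ₁ (1 + a) b ε g2 v m) m :=
    hW1m.mul ((AM_meas H.bm τ₁ (1 + a) ε hg2 v).indicator hMedm)
  have hKam : Measurable fun m : Vec d => ENNReal.ofReal (Ka * g v * (g2 (v - m) * w (v - m))) :=
    ((hg2m.mul (hwm.comp (measurable_const.sub measurable_id))).const_mul _).ennreal_ofReal
  have hW2f : ∫⁻ m, W2 m ≠ ⊤ := by
    refine ne_top_of_le_ne_top hfin (lintegral_mono fun m => ?_)
    rw [hWt m]
    exact le_add_self
  have hκf : κx * ∫⁻ m, W2 m ≠ ⊤ := ENNReal.mul_ne_top ENNReal.ofReal_ne_top hW2f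
  have e1 : ∫⁻ z, ENNReal.ofReal ((Ka + Kb) * g v * (g2 z * ((v e - z e) * Ph4 e a v z))) =
      ∫⁻ m, ENNReal.ofReal ((Ka + Kb) * g v * (g2 (v - m) * w (v - m))) :=
    (lintegral_sub_left_eq_self
      (fun z => ENNReal.ofReal ((Ka + Kb) * g v * (g2 z * ((v e - z e) * Ph4 e a v z)))) v).symm
  have e2 : ∫⁻ m, ENNReal.ofReal ((Ka + Kb) * g v * (g2 (v - m) * w (v - m))) =
      (∫⁻ m, ENNReal.ofReal (Ka * g v * (g2 (v - m) * w (v - m)))) +
        ∫⁻ m, ENNReal.ofReal (Kb * g v * (g2 (v - m) * w (v - m))) := by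
    rw [← lintegral_add_left hKam]
    refine lintegral_congr fun m => ?_
    have h2 : 0 ≤ g2 (v - m) * w (v - m) := mul_nonneg (hg20 _) (hw0 _)
    rw [← ENNReal.ofReal_add (by positivity) (by positivity)]
    congr 1; ring
  have hLs : Ls (1 + a) b ε g v = ∫⁻ m, (W1 m + W2 m) * Bm m := by
    rw [loss_eq H.hd (1 + a) H.bm H.bd hε hg hg0 v]
    refine lintegral_congr fun m => ?_
    rw [hWt m]
  have hGn : Gn (1 + a) b ε g v ≤ ∫⁻ m, (W1 m + W2 m) * G m := by
    refine (gain_splitg H.hd (1 + a) H.bm H.bd hε hg hg0 (measurableSet_RegS θ L v) v).trans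
      (le_of_eq ?_)
    refine lintegral_congr fun m => ?_
    rw [hWt m]
  rw [e1, e2, hLs]
  refine (ENNReal.add_le_add_iff_right hκf).1 ?_
  calc Gn (1 + a) b ε g v + κx * (∫⁻ m, W1 m) + κx * (∫⁻ m, W2 m)
      ≤ (∫⁻ m, (W1 m + W2 m) * G m) + ∫⁻ m, (W1 m + W2 m) * κx := by
        rw [add_assoc, ← mul_add, ← lintegral_add_left hW1m, lintegral_mul_const _ hW12m,
          mul_comm κx]
        exact add_le_add_left hGn _
    _ = ∫⁻ m, ((W1 m + W2 m) * G m + (W1 m + W2 m) * κx) := by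
        rw [lintegral_add_right _ (hW12m.mul_const _)]
    _ ≤ ∫⁻ m, ((W1 m + W2 m) * Bm m +
          (W2 m * (Med \ Th').indicator (fun _ => ENNReal.ofReal (K₁ * g v)) m +
            (W1 m * Med.indicator (fun m => AM τ₁ (1 + a) b ε g2 v m) m +
              W2 m * (Med ∩ Th').indicator (fun m => TM e τ (1 + a) b ε g2 v m) m))) := by
        refine lintegral_mono_ae ?_
        filter_upwards [ae_ne H.hd1 (0 : Vec d)] with m hm
        have h2 := mul_le_mul_right (hP1 m hm.symm) (W1 m)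
        have h3 := mul_le_mul_right (hP2 m hm.symm) (W2 m)
        calc (W1 m + W2 m) * G m + (W1 m + W2 m) * κx
            = W1 m * (G m + κx) + W2 m * (G m + κx) := by ring
          _ ≤ _ := add_le_add h2 h3
          _ = _ := by ring
    _ = (∫⁻ m, (W1 m + W2 m) * Bm m) +
        ((∫⁻ m, W2 m * (Med \ Th').indicator (fun _ => ENNReal.ofReal (K₁ * g v)) m) +
          ((∫⁻ m, W1 m * Med.indicator (fun m => AM τ₁ (1 + a) b ε g2 v m) m) +
            ∫⁻ m, W2 m * (Med ∩ Th').indicator (fun m => TM e τ (1 + a) b ε g2 v m) m)) := by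
        rw [lintegral_add_left hAm, lintegral_add_left hBm', lintegral_add_left hCm']
    _ ≤ (∫⁻ m, (W1 m + W2 m) * Bm m) +
        ((∫⁻ m, ENNReal.ofReal (Ka * g v * (g2 (v - m) * w (v - m)))) +
          (κx * (∫⁻ m, W2 m) +
            ∫⁻ m, ENNReal.ofReal (Kb * g v * (g2 (v - m) * w (v - m))))) := by
        refine add_le_add_right (add_le_add (lintegral_mono hRa) (add_le_add hR3 hswap')) _
    _ = _ := by ring

end Pool.Agent.H82.NT
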